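import Pool.Agent.Lib.MP_66fb70_lc.Mach

/-! If every infinite set in P has an infinite printable subset then every recursive set outside
P has hard instances. -/

namespace Pool.Agent.Lib.MP_66fb70_lc

open Turing Function Pool.Agent.Lib.helper82 Computability

/-- The string with index `j`. -/
def str (j : ℕ) : List Bool := j.bits.dropLast

theorem str_pt {α : Type} [Enc α] {n : α → ℕ} (hn : PT n) : PT fun a => str (n a) :=
  (PT.reverse (PT.tail (PT.reverse (PT.bits hn)))).congr fun a => by
    simp [str, List.tail_reverse]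

theorem exists_str (y : List Bool) : ∃ j < 2 ^ (y.length + 1), str j = y := by
  have h := encodeNat_decode y
  rw [encodeNat_eq_bits] at h
  refine ⟨decodeNat (y ++ [true]), ?_, by simp [str, h]⟩
  rw [← Nat.size_le, ← Nat.size_eq_bits_len, h]
  simp

theorem length_str_le (j : ℕ) : (str j).length ≤ j := by
  have := sz_nat_le_self j
  rw [sz_nat] at this
  simp only [str, List.length_dropLast, Nat.size_eq_bits_len]
  omega

theorem infinite_of_len {s : Set (List Bool)} (h : ∀ m, ∃ x ∈ s, m ≤ x.length) : s.Infinite := by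
  intro hf
  obtain ⟨x, hx, hm⟩ := h (hf.toFinset.sup List.length + 1)
  have : x.length ≤ hf.toFinset.sup List.length := Finset.le_sup (by simpa using hx)
  omega

theorem len_of_infinite {s : Set (List Bool)} (h : s.Infinite) (m : ℕ) :
    ∃ x ∈ s, m ≤ x.length := by
  by_contra hne
  push Not at hne
  exact h ((List.finite_length_lt Bool m).subset fun x hx => hne x hx)

theorem pt_patch {A f : List Bool → Bool} (hf : PT f) (N : ℕ)
    (h : ∀ x, N ≤ x.length → A x = f x) : PT A := by
  have h1 : PT fun x : List Bool => if x.length < N then A x else false :=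
    PT.ofFinite false (List.finite_length_lt Bool N).toFinset.toList _ fun x hx =>
      if_neg (by simpa using hx)
  refine (PT.ite (PT.lt (PT.length PT.id) (PT.const N)) h1 hf).congr fun x => ?_
  by_cases hx : x.length < N
  · simp [hx]
  · simp [hx, h x (by omega)]

theorem exists_dec {A : List Bool → Bool} (hA : Recursive A) :
    ∃ dec : List Bool × List Bool → Bool × List Bool, PT dec ∧ ∀ y, ∃ m, ∀ clock : List Bool,
      (m ≤ clock.length → (dec (y, clock)).1 = true) ∧
        ((dec (y, clock)).1 = true → (dec (y, clock)).2 = [A y]) := by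
  obtain ⟨tm⟩ := hA
  obtain ⟨sim, h1, h2⟩ := exists_sim_flag tm.toTM2ComputableAux
  refine ⟨fun a => sim (enc a.1, a.2), PT.comp h1 (PT.pair (PT.comp PT.encList PT.fst') PT.snd'),
    fun y => ⟨(tm.outputsFun y).steps, fun clock => ?_⟩⟩
  exact h2 (enc y) (enc (A y)) clock _ ⟨⟨tm.outputsFun y, le_rfl⟩⟩

theorem exists_run (U : Machine) (t : Polynomial ℕ) :
    ∃ run : List Bool × List Bool → Bool × List Bool, PT run ∧
      ∀ p z w : List Bool, U.Out p [] z (t.eval z.length) w ↔ run (p, z) = (true, w) := by
  obtain ⟨sim, h1, h2⟩ := U.exists_msim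
  refine ⟨fun a => sim (a, List.replicate (t.eval a.2.length) true),
    PT.comp h1 (PT.pair PT.id (PT.clock PT.snd' t)), fun p z w => ?_⟩
  rw [← h2]; simp

theorem log_bound (c : ℕ) (q : Polynomial ℕ) (n : ℕ) :
    c * q.eval n * Nat.log 2 (q.eval n) + c ≤
      (Polynomial.C c * q * q + Polynomial.C c).eval n := by
  simp only [Polynomial.eval_add, Polynomial.eval_mul, Polynomial.eval_C]
  have := Nat.mul_le_mul_left (c * q.eval n) (Nat.log_le_self 2 (q.eval n))
  omega

section

variable (dec run : List Bool × List Bool → Bool × List Bool)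

def refuted (a : List Bool × List Bool) : Bool :=
  (List.range a.2.length).any fun j => (dec (str j, a.2)).1 &&
    !(decide (run (a.1, str j) = (true, (dec (str j, a.2)).2)) ||
      decide (run (a.1, str j) = (true, [])))

def active (a : List Bool × List Bool) : Bool :=
  !refuted dec run a && ((run a).1 && !(run a).2.isEmpty)

def quiet (a : ℕ × List Bool) : Bool :=
  decide (a.1 ≤ a.2.length) &&
    (List.range a.2.length).all fun j => !(decide (j < a.1) && active dec run (str j, a.2))

def record (x : List Bool) : Bool :=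
  (List.range (true :: x).length).any fun i => quiet dec run (i, x) &&
    (List.range x.length).all fun j => !quiet dec run (i, str j)

variable {dec run}

theorem refuted_pt (hd : PT dec) (hr : PT run) : PT (refuted dec run) := by
  have h1 : PT fun a : (List Bool × List Bool) × ℕ => dec (str a.2, a.1.2) :=
    PT.comp hd (PT.pair (str_pt PT.snd') (PT.snd PT.fst'))
  have h2 : PT fun a : (List Bool × List Bool) × ℕ => run (a.1.1, str a.2) :=
    PT.comp hr (PT.pair (PT.fst PT.fst') (str_pt PT.snd'))
  exact PT.any (PT.range PT.snd') (PT.and (PT.fst h1) (PT.not (PT.or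
    (PT.eq h2 (PT.pair (PT.const true) (PT.snd h1))) (PT.eq h2 (PT.const _)))))

theorem active_pt (hd : PT dec) (hr : PT run) : PT (active dec run) :=
  PT.and (PT.not (refuted_pt hd hr)) (PT.and (PT.fst hr) (PT.not (PT.isEmpty (PT.snd hr))))

theorem quiet_pt (hd : PT dec) (hr : PT run) : PT (quiet dec run) :=
  PT.and (PT.le PT.fst' (PT.length PT.snd')) (PT.all (PT.range PT.snd')
    (PT.not (PT.and (PT.lt PT.snd' (PT.fst PT.fst'))
      (PT.comp (active_pt hd hr) (PT.pair (str_pt PT.snd') (PT.snd PT.fst'))))))

theorem record_pt (hd : PT dec) (hr : PT run) : PT (record dec run) :=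
  PT.any (PT.range (PT.cons (PT.const true) PT.id))
    (PT.and (PT.comp (quiet_pt hd hr) (PT.pair PT.snd' PT.fst'))
      (PT.all (PT.range PT.fst') (PT.not (PT.comp (quiet_pt hd hr)
        (PT.pair (PT.snd PT.fst') (str_pt PT.snd'))))))

theorem quiet_iff (i : ℕ) (x : List Bool) : quiet dec run (i, x) = true ↔
    i ≤ x.length ∧ ∀ j < i, active dec run (str j, x) = false := by
  simp only [quiet, Bool.and_eq_true, decide_eq_true_eq, List.all_eq_true, List.mem_range,
    Bool.not_eq_true', Bool.and_eq_false_iff, decide_eq_false_iff_not]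
  refine and_congr_right fun h => ⟨fun h' j hj => (h' j (by omega)).resolve_left (by omega),
    fun h' j _ => ?_⟩
  by_cases hj : j < i
  · exact Or.inr (h' j hj)
  · exact Or.inl hj

theorem quiet_mono {i i' : ℕ} {x : List Bool} (h : quiet dec run (i, x) = true) (hle : i' ≤ i) :
    quiet dec run (i', x) = true := by
  rw [quiet_iff] at h ⊢
  exact ⟨hle.trans h.1, fun j hj => h.2 j (by omega)⟩

theorem record_iff (x : List Bool) : record dec run x = true ↔
    ∃ i, quiet dec run (i, x) = true ∧ ∀ j < x.length, quiet dec run (i, str j) = false := by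
  simp only [record, List.any_eq_true, List.mem_range, Bool.and_eq_true, List.all_eq_true,
    Bool.not_eq_true', List.length_cons]
  exact ⟨fun ⟨i, _, h⟩ => ⟨i, h⟩, fun ⟨i, h⟩ =>
    ⟨i, by have := ((quiet_iff i x).1 h.1).1; omega, h⟩⟩

theorem record_infinite (h : ∀ i, ∃ x, quiet dec run (i, x) = true) :
    {x | record dec run x = true}.Infinite := by
  classical
  refine infinite_of_len fun m => ?_
  have hex : ∃ n, ∃ x : List Bool, x.length = n ∧ quiet dec run (m, x) = true := by
    obtain ⟨x, hx⟩ := h m
    exact ⟨_, x, rfl, hx⟩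
  obtain ⟨x, hx1, hx2⟩ := Nat.find_spec hex
  refine ⟨x, (record_iff x).2 ⟨m, hx2, fun j hj => ?_⟩, ((quiet_iff m x).1 hx2).1⟩
  by_contra hq
  have := Nat.find_min' hex ⟨str j, rfl, by simpa using hq⟩
  have := length_str_le j
  omega

theorem record_quiet (h : ∀ i, ∃ x, quiet dec run (i, x) = true) (i : ℕ) :
    ∃ N, ∀ x, record dec run x = true → N ≤ x.length → quiet dec run (i, x) = true := by
  obtain ⟨y, hy⟩ := h i
  obtain ⟨j, _, rfl⟩ := exists_str y
  refine ⟨j + 1, fun x hx hN => ?_⟩
  obtain ⟨i', h1, h2⟩ := (record_iff x).1 hx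
  by_cases hle : i ≤ i'
  · exact quiet_mono h1 hle
  · have := quiet_mono hy (show i' ≤ i by omega)
    rw [h2 j (by omega)] at this
    exact absurd this (by simp)

variable {U : Machine} {t : Polynomial ℕ} {A : List Bool → Bool}
  (hdec : ∀ y, ∃ m, ∀ clock : List Bool, (m ≤ clock.length → (dec (y, clock)).1 = true) ∧
    ((dec (y, clock)).1 = true → (dec (y, clock)).2 = [A y]))
  (hrun : ∀ p z w : List Bool, U.Out p [] z (t.eval z.length) w ↔ run (p, z) = (true, w))

include hdec hrun

theorem not_refuted {p : List Bool} (hp : U.Consistent (fun n => t.eval n) A p) (x : List Bool) :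
    refuted dec run (p, x) = false := by
  simp only [refuted, List.any_eq_false, List.mem_range, Bool.and_eq_true, Bool.not_eq_true',
    Bool.or_eq_false_iff, decide_eq_false_iff_not, not_and, not_not]
  intro j _ h1 h2
  obtain ⟨m, hm⟩ := hdec (str j)
  rw [(hm x).2 h1] at h2
  exact (hrun ..).1 ((hp (str j)).resolve_left fun h => h2 ((hrun ..).1 h))

theorem refuted_of_not {p : List Bool} (hp : ¬ U.Consistent (fun n => t.eval n) A p) :
    ∃ N, ∀ x : List Bool, N ≤ x.length → refuted dec run (p, x) = true := by
  simp only [Machine.Consistent, not_forall, not_or] at hp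
  obtain ⟨z, h1, h2⟩ := hp
  obtain ⟨j, _, rfl⟩ := exists_str z
  obtain ⟨m, hm⟩ := hdec (str j)
  refine ⟨max (j + 1) m, fun x hx => ?_⟩
  have h3 := (hm x).1 (by omega)
  simp only [refuted, List.any_eq_true, List.mem_range, Bool.and_eq_true, Bool.not_eq_true',
    Bool.or_eq_false_iff, decide_eq_false_iff_not]
  refine ⟨j, by omega, h3, ?_, fun h => h2 ((hrun ..).2 h)⟩
  rw [(hm x).2 h3]
  exact fun h => h1 ((hrun ..).2 h)

theorem le_ic_of_quiet {k : ℕ} {x : List Bool} (h : quiet dec run (2 ^ k, x) = true) :
    (k : ℕ∞) ≤ U.ic (fun n => t.eval n) A x := by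
  apply le_sInf
  rintro _ ⟨p, rfl, h1, h2⟩
  by_contra hlt
  have hlt' : p.length < k := by
    by_contra hh
    exact hlt (by exact_mod_cast (by omega : k ≤ p.length))
  obtain ⟨j, hj, rfl⟩ := exists_str p
  have h3 := ((quiet_iff _ _).1 h).2 j (hj.trans_le (Nat.pow_le_pow_right (by omega) hlt'))
  simp [active, not_refuted hdec hrun h1, (hrun ..).1 h2] at h3

theorem exists_quiet (hr : PT run) (hA : A ∉ N68a2faeb.P) (i : ℕ) :
    ∃ x, quiet dec run (i, x) = true := by
  classical
  by_contra hne
  push Not at hne
  apply hA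
  have hN : ∀ j, ∃ N, ¬ U.Consistent (fun n => t.eval n) A (str j) →
      ∀ x : List Bool, N ≤ x.length → refuted dec run (str j, x) = true := by
    intro j
    by_cases hp : U.Consistent (fun n => t.eval n) A (str j)
    · exact ⟨0, fun h => absurd hp h⟩
    · obtain ⟨N, hN⟩ := refuted_of_not hdec hrun hp
      exact ⟨N, fun _ => hN⟩
  choose N hN using hN
  let G : List ℕ := (List.range i).filter fun j => U.Consistent (fun n => t.eval n) A (str j)
  have hf : PT fun x : List Bool => G.any fun j => decide (run (str j, x) = (true, [true])) :=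
    PT.any (PT.const G) (PT.eq (PT.comp hr (PT.pair (str_pt PT.snd') PT.fst')) (PT.const _))
  refine (pt_patch hf (max i ((Finset.range i).sup N)) fun x hx => ?_).isPolyTime
  have h1 := hne x
  rw [Ne, quiet_iff] at h1
  push Not at h1
  obtain ⟨j, hj, h2⟩ := h1 (by omega)
  have h3 : N j ≤ (Finset.range i).sup N := Finset.le_sup (Finset.mem_range.2 hj)
  simp only [active, ne_eq, Bool.not_eq_false, Bool.and_eq_true, Bool.not_eq_true'] at h2
  have h4 : U.Consistent (fun n => t.eval n) A (str j) := by
    by_contra hp
    rw [hN j hp x (by omega)] at h2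
    exact absurd h2.1 (by simp)
  have h5 : run (str j, x) = (true, [A x]) := by
    rcases h4 x with h | h
    · exact (hrun ..).1 h
    · rw [(hrun ..).1 h] at h2
      exact absurd h2.2.2 (by simp)
  rw [Bool.eq_iff_iff]
  simp only [List.any_eq_true, decide_eq_true_eq, G, List.mem_filter, List.mem_range]
  constructor
  · intro h
    exact ⟨j, ⟨hj, h4⟩, by rw [h5, h]⟩
  · rintro ⟨j', ⟨_, h6⟩, h7⟩
    rcases h6 x with h | h
    · rw [(hrun ..).1 h] at h7
      simpa using h7
    · rw [(hrun ..).1 h] at h7
      simp at h7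

end

theorem hard_of_printable (U : Machine) (hU : Optimal U)
    (H : ∀ S ∈ N68a2faeb.P, {x | S x = true}.Infinite →
      ∃ T ⊆ {x | S x = true}, T.Infinite ∧ Printable T)
    (A : List Bool → Bool) (hA : Recursive A) (hP : A ∉ N68a2faeb.P) : HasHardInstances U A := by
  classical
  intro t
  obtain ⟨dec, hd, hdec⟩ := exists_dec hA
  obtain ⟨run, hr, hrun⟩ := exists_run U t
  have hq := exists_quiet hdec hrun hr hP
  obtain ⟨T, hTS, hTi, F, hF, hFT⟩ := H (record dec run) (record_pt hd hr).isPolyTime
    (record_infinite hq)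
  have hF' : PT F := PT.ofIsPolyTime hF
  let cand : List Bool × List Bool → List (List Bool) := fun s =>
    (F s.2).filter fun x => decide (x.length = s.2.length) && quiet dec run (2 ^ s.1.length, x)
  have hcand : PT cand := PT.filter (PT.comp hF' PT.snd')
    (PT.and (PT.eq (PT.length PT.snd') (PT.length (PT.snd PT.fst')))
      (PT.comp (quiet_pt hd hr) (PT.pair (PT.powU (PT.const 2) (PT.fst PT.fst')) PT.snd')))
  obtain ⟨M, q, hM⟩ := exists_search (σ := List Bool × List Bool) (init := fun p => (p, []))
    (st := fun s => (s.1, false :: s.2)) (go := fun s => (cand s).isEmpty)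
    (out := fun s => (cand s).headD []) (PT.pair PT.id (PT.const []))
    (PT.pair PT.fst' (PT.cons (PT.const false) PT.snd')) (PT.isEmpty hcand) (PT.headD hcand [])
  have hit : ∀ (p : List Bool) (k : ℕ),
      (fun s : List Bool × List Bool => (s.1, false :: s.2))^[k] (p, []) =
        (p, List.replicate k false) := by
    intro p k
    induction k with
    | zero => rfl
    | succ k ih => rw [iterate_succ_apply', ih]; rfl
  simp only [hit] at hM
  obtain ⟨c, hc⟩ := hU M
  let q' : Polynomial ℕ := (Polynomial.X + 1) * q.comp (9 * Polynomial.X + 1)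
  refine ⟨Polynomial.C c * q' * q' + Polynomial.C c, c, infinite_of_len fun k => ?_⟩
  let p : List Bool := List.replicate k false
  have hex : ∃ n, (cand (p, List.replicate n false)).isEmpty = false := by
    obtain ⟨N, hN⟩ := record_quiet hq (2 ^ k)
    obtain ⟨x, hx, hl⟩ := len_of_infinite hTi N
    refine ⟨x.length, ?_⟩
    have : x ∈ cand (p, List.replicate x.length false) := by
      simp only [cand, List.mem_filter, p, List.length_replicate]
      exact ⟨(hFT _ _).2 ⟨hx, le_rfl⟩, by simp [hN x (hTS hx) hl]⟩
    rcases h : cand (p, List.replicate x.length false) with _ | ⟨a, l⟩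
    · rw [h] at this; simp at this
    · rfl
  let n := Nat.find hex
  let x := (cand (p, List.replicate n false)).headD []
  have hx : x ∈ cand (p, List.replicate n false) := by
    have := Nat.find_spec hex
    simp only [x]
    rcases h : cand (p, List.replicate n false) with _ | ⟨a, l⟩
    · simp only [n] at h; rw [h] at this; simp at this
    · simp
  simp only [cand, List.mem_filter, p, List.length_replicate, Bool.and_eq_true,
    decide_eq_true_eq] at hx
  obtain ⟨_, hx1, hx2⟩ := hx
  have hkn : k ≤ n := by
    have h1 := ((quiet_iff _ _).1 hx2).1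
    have h2 : k < 2 ^ k := Nat.lt_two_pow_self
    omega
  have hout : M.Out p [] [] (q'.eval x.length) x := by
    have := hM p n (9 * n + 1) (by simp [p]; omega)
      (fun j hj => by simpa using Nat.find_min hex hj) (Nat.find_spec hex) (fun j hj => by
        rw [sz_prod, PT.sz_listBool, PT.sz_listBool]
        simp [p]; omega)
    rw [hx1]
    exact this.mono (by simp [q', Polynomial.eval_comp])
  refine ⟨x, ?_, by omega⟩
  have h1 : M.kc (fun n => q'.eval n) x ≤ k := by
    simpa [p] using Machine.kc_le (t := fun n => q'.eval n) hout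
  have h2 := (hc A (fun n => q'.eval n) x).2
  have h3 := Machine.kc_anti (M := U) (log_bound c q') x
  have h4 := le_ic_of_quiet hdec hrun hx2
  calc _ ≤ _ := h3
    _ ≤ _ := h2
    _ ≤ _ := add_le_add (h1.trans h4) le_rfl

end Pool.Agent.Lib.MP_66fb70_lc
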