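import Mathlib
import Pool.Prelude.Def_H_3587d628

/-! Instance complexity and time bounded Kolmogorov complexity for Turing machines with three
inputs. -/

namespace Pool.Agent.Lib.MP_66fb70_lc

open Turing

/-- A deterministic Turing machine with `k + 4` binary stacks, finitely many labels and finitely
many internal states (the stack model `TM2` of Mathlib). Stacks `0`, `1`, `2` hold the program,
the auxiliary input and the input, and stack `3` receives the output. -/
structure Machine where
  k : ℕ
  Λ : Type
  σ : Type
  [finΛ : Fintype Λ]
  [finσ : Fintype σ]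
  main : Λ
  init : σ
  prog : Λ → TM2.Stmt (fun _ : Fin (k + 4) => Bool) Λ σ

/-- The starting configuration of `M(p, y, z)`. -/
def Machine.start (M : Machine) (p y z : List Bool) :
    TM2.Cfg (fun _ : Fin (M.k + 4) => Bool) M.Λ M.σ :=
  ⟨some M.main, M.init, fun i =>
    if i.val = 0 then p else if i.val = 1 then y else if i.val = 2 then z else []⟩

/-- `M(p, y, z)` halts within `t` steps with the string `w` on its output stack. -/
def Machine.Out (M : Machine) (p y z : List Bool) (t : ℕ) (w : List Bool) : Prop :=
  ∃ n ≤ t, ∃ c, (fun o => Option.bind o (TM2.step M.prog))^[n] (some (M.start p y z)) = some c ∧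
    c.l = none ∧ c.stk 3 = w

/-- On every input `z` the computation `M(p, ε, z)` halts within `t |z|` steps and outputs either
the bit `χ_A(z)` or `⊥`, which is written as the empty output. -/
def Machine.Consistent (M : Machine) (t : ℕ → ℕ) (A : List Bool → Bool) (p : List Bool) : Prop :=
  ∀ z, M.Out p [] z (t z.length) [A z] ∨ M.Out p [] z (t z.length) []

/-- The `t`-bounded instance complexity `ic_M^t(x : A)`; it is `⊤` when no program qualifies. -/
noncomputable def Machine.ic (M : Machine) (t : ℕ → ℕ) (A : List Bool → Bool) (x : List Bool) :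
    ℕ∞ :=
  sInf {n : ℕ∞ | ∃ p : List Bool, n = p.length ∧ M.Consistent t A p ∧
    M.Out p [] x (t x.length) [A x]}

/-- The `t`-bounded Kolmogorov complexity `C_M^t(x)`; it is `⊤` when no program qualifies. -/
noncomputable def Machine.kc (M : Machine) (t : ℕ → ℕ) (x : List Bool) : ℕ∞ :=
  sInf {n : ℕ∞ | ∃ p : List Bool, n = p.length ∧ M.Out p [] [] (t x.length) x}

/-- `U` is an optimal interpreter. -/
def Optimal (U : Machine) : Prop :=
  ∀ M : Machine, ∃ c : ℕ, ∀ (A : List Bool → Bool) (t : ℕ → ℕ) (x : List Bool),
    U.ic (fun n => c * t n * Nat.log 2 (t n) + c) A x ≤ M.ic t A x + c ∧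
    U.kc (fun n => c * t n * Nat.log 2 (t n) + c) x ≤ M.kc t x + c

/-- `A` has p-hard instances with respect to the interpreter `U`. -/
def HasHardInstances (U : Machine) (A : List Bool → Bool) : Prop :=
  ∀ t : Polynomial ℕ, ∃ (t' : Polynomial ℕ) (c : ℕ),
    {x : List Bool | U.kc (fun n => t'.eval n) x ≤ U.ic (fun n => t.eval n) A x + c}.Infinite

/-- `A` is recursive: a Turing machine that halts on every input computes its characteristic
function. -/
def Recursive (A : List Bool → Bool) : Prop :=
  Nonempty (TM2Computable (N487b59b3.bitEncode : List Bool → List Bool)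
    (N487b59b3.bitEncode : Bool → List Bool) A)

/-- `T` is P-printable: a polynomial time function lists, on input `0^n`, exactly the elements
of `T` of length at most `n`. -/
def Printable (T : Set (List Bool)) : Prop :=
  ∃ F : List Bool → List (List Bool), N68a2faeb.IsPolyTime F ∧
    ∀ (n : ℕ) (y : List Bool), y ∈ F (List.replicate n false) ↔ y ∈ T ∧ y.length ≤ n

end Pool.Agent.Lib.MP_66fb70_lc
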