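import Pool.Agent.Lib.MP_66fb70_lc.Back

/-! If some infinite set in P has no infinite printable subset then some recursive set outside P
has no hard instances. -/

namespace Pool.Agent.Lib.MP_66fb70_lc

open Turing Function Pool.Agent.Lib.helper82 Computability

theorem poly_le_exp (p : Polynomial ℕ) : ∃ N, ∀ n, N ≤ n → p.eval n ≤ 2 ^ (n + 1) := by
  obtain ⟨e, he⟩ := poly_le_pow p
  have h := tendsto_pow_const_div_const_pow_of_one_lt e (show (1 : ℝ) < 2 by norm_num)
  obtain ⟨N, hN⟩ := Filter.eventually_atTop.1 (h.eventually (gt_mem_nhds (show (0 : ℝ) < 1 by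
    norm_num)))
  refine ⟨max N 2, fun n hn => (he n (by omega)).trans ?_⟩
  have h1 := hN n (by omega)
  rw [div_lt_one (by positivity)] at h1
  have h2 : n ^ e < 2 ^ n := by exact_mod_cast h1
  rw [pow_succ]; omega

theorem finite_kc_le (U : Machine) (t : ℕ → ℕ) (m : ℕ) : {x | U.kc t x ≤ m}.Finite := by
  refine ((List.finite_length_le Bool m).biUnion
    (t := fun p => {x | U.Out p [] [] (t x.length) x}) fun p _ => ?_).subset fun x hx => ?_
  · exact Set.Subsingleton.finite fun x hx y hy => Machine.Out.unique hx hy
  · obtain ⟨p, h1, h2⟩ := Machine.exists_of_kc_le hx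
    exact Set.mem_biUnion (x := p) h1 h2

theorem two_pow_size_le (n : ℕ) : 2 ^ n.size ≤ 2 * (n + 1) := by
  rcases h : n.size with _ | k
  · omega
  · have : 2 ^ k ≤ n := Nat.lt_size.1 (by omega)
    rw [pow_succ]; omega

theorem printable_low (U : Machine) (t : Polynomial ℕ) {S : List Bool → Bool} (hS : PT S) (d : ℕ) :
    Printable {x | S x = true ∧ U.kc (fun n => t.eval n) x ≤ (x.length.size + d : ℕ)} := by
  obtain ⟨sim, h1, h2⟩ := U.exists_msim
  let w : List Bool × ℕ → List Bool := fun a =>
    (sim ((str a.2, []), List.replicate (t.eval a.1.length) true)).2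
  have hw : PT w := PT.snd (PT.comp h1 (PT.pair (PT.pair (str_pt PT.snd') (PT.const []))
    (PT.clock PT.fst' t)))
  let ok : List Bool × ℕ → Bool := fun a =>
    decide (sim ((str a.2, []), List.replicate (t.eval (w a).length) true) = (true, w a)) &&
      (decide ((w a).length ≤ a.1.length) && (S (w a) &&
        decide ((str a.2).length ≤ (w a).length.bits.length + d)))
  have hok : PT ok := PT.and (PT.eq (PT.comp h1 (PT.pair (PT.pair (str_pt PT.snd') (PT.const []))
    (PT.clock hw t))) (PT.pair (PT.const true) hw))
    (PT.and (PT.le (PT.length hw) (PT.length PT.fst')) (PT.and (PT.comp hS hw)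
      (PT.le (PT.length (str_pt PT.snd')) (PT.add (PT.length (PT.bits (PT.length hw)))
        (PT.const d)))))
  let r : Polynomial ℕ := Polynomial.C (2 ^ (d + 2)) * (Polynomial.X + 1)
  have hF : PT fun u : List Bool =>
      ((List.range (List.replicate (r.eval u.length) true).length).filter fun j => ok (u, j)).map
        fun j => w (u, j) :=
    PT.map (F := fun u j => w (u, j)) (PT.filter (P := fun u j => ok (u, j))
      (PT.range (PT.clock PT.id r)) hok) hw
  refine ⟨_, hF.isPolyTime, fun n y => ?_⟩
  simp only [List.mem_map, List.mem_filter, List.mem_range, List.length_replicate,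
    Set.mem_ofPred_eq, ok, Bool.and_eq_true, decide_eq_true_eq, Nat.size_eq_bits_len]
  constructor
  · rintro ⟨j, ⟨_, a1, a2, a3, a4⟩, rfl⟩
    refine ⟨⟨a3, ?_⟩, a2⟩
    have := (h2 _ _ _ _).2 a1
    rw [List.length_replicate] at this
    exact (Machine.kc_le (t := fun n => t.eval n) this).trans (by exact_mod_cast a4)
  · rintro ⟨⟨a1, a2⟩, a3⟩
    obtain ⟨p, b1, b2⟩ := Machine.exists_of_kc_le a2
    obtain ⟨j, hj, rfl⟩ := exists_str p
    have e : w (List.replicate n false, j) = y := by
      have := (h2 (str j) [] (List.replicate (t.eval n) true) y).1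
        (b2.mono (by simpa using eval_mono t a3))
      simp [w, this]
    refine ⟨j, ⟨?_, ?_⟩, e⟩
    · have c1 : 2 ^ ((str j).length + 1) ≤ 2 ^ (n.size + (d + 1)) :=
        Nat.pow_le_pow_right (by omega) (by have := Nat.size_le_size a3; omega)
      have c2 := two_pow_size_le n
      have c3 : 2 ^ (n.size + (d + 1)) ≤ 2 ^ (d + 2) * (n + 1) := by
        rw [pow_add, show 2 ^ (d + 2) = 2 ^ (d + 1) * 2 from pow_succ 2 (d + 1)]
        nlinarith [Nat.two_pow_pos (d + 1)]
      simp only [r, Polynomial.eval_mul, Polynomial.eval_C, Polynomial.eval_add,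
        Polynomial.eval_X, Polynomial.eval_one]
      omega
    · rw [e]
      exact ⟨(h2 _ _ _ _).1 (by simpa using b2), a3, a1, b1⟩

theorem ic_bounded_of_P (U : Machine) (hU : Optimal U) {A : List Bool → Bool} (hA : PT A) :
    ∃ (t : Polynomial ℕ) (c : ℕ), ∀ x, U.ic (fun n => t.eval n) A x ≤ c := by
  obtain ⟨M, q, hM⟩ := exists_lazy (G := fun a => [A a.1])
    (PT.cons (PT.comp hA PT.fst') (PT.const []))
  obtain ⟨c, hc⟩ := hU M
  refine ⟨_, c, fun x => (Machine.ic_anti (log_bound c q) A x).trans
    ((hc A (fun n => q.eval n) x).1.trans ?_)⟩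
  have := Machine.ic_le (M := M) (t := fun n => q.eval n) (A := A) (p := []) (x := x)
    (fun z => Or.inl (hM [] z)) (hM [] x)
  simpa using add_le_add this (le_refl (c : ℕ∞))

/-- A set that is cut out of `S` by lengths, is recursive and is not in P. -/
theorem exists_diag (U : Machine) (hU : Optimal U) {S : List Bool → Bool} (hS : PT S)
    (hinf : {x | S x = true}.Infinite) :
    ∃ T : ℕ → Bool, Recursive (fun x => S x && T x.length) ∧
      (fun x => S x && T x.length) ∉ N68a2faeb.P := by
  classical
  obtain ⟨sim, h1, h2⟩ := U.exists_msim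
  obtain ⟨pr, hpr, epr⟩ :=
    (((Prs.list Prs.bool).prod (Prs.list (Prs.list Prs.bool))).prod Prs.bool)
  let cand : ℕ × List Bool → List ℕ := fun a =>
    (List.range a.2.length).filter fun j => decide ((str j).length = a.1) && S (str j)
  have hcand : PT cand := PT.filter (PT.range PT.snd')
    (PT.and (PT.eq (PT.length (str_pt PT.snd')) (PT.fst PT.fst')) (PT.comp hS (str_pt PT.snd')))
  let idx : ℕ × List Bool → ℕ := fun a =>
    ((List.range a.2.length).filter fun m => decide (m < a.1) && !(cand (m, a.2)).isEmpty).length
  have hidx : PT idx := PT.length (PT.filter (PT.range PT.snd')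
    (PT.and (PT.lt PT.snd' (PT.fst PT.fst'))
      (PT.not (PT.isEmpty (PT.comp hcand (PT.pair PT.snd' (PT.snd PT.fst')))))))
  let Tb : ℕ × List Bool → Bool := fun a =>
    !(pr (idx a).bits).1.2.any fun p =>
      decide (sim ((p, str ((cand a).headD 0)), a.2) = (true, [true]))
  have hTb : PT Tb := PT.not (PT.any (PT.snd (PT.fst (PT.comp hpr (PT.bits hidx))))
    (PT.eq (PT.comp h1 (PT.pair (PT.pair PT.snd' (str_pt (PT.headD (PT.comp hcand PT.fst') 0)))
      (PT.snd PT.fst'))) (PT.const _)))
  refine ⟨fun n => Tb (n, List.replicate (2 ^ (n + 1)) true), ?_, fun hP => ?_⟩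
  · refine recursive_of_loop (σ := List Bool × List Bool × List Bool)
      (init := fun x => (x, true :: x, [true])) (st := fun s => (s.1, s.2.1.tail, s.2.2 ++ s.2.2))
      (go := fun s => !s.2.1.isEmpty) (out := fun s => S s.1 && Tb (s.1.length, s.2.2))
      (PT.pair PT.id (PT.pair (PT.cons (PT.const true) PT.id) (PT.const _)))
      (PT.pair PT.fst' (PT.pair (PT.tail (PT.fst PT.snd'))
        (PT.append (PT.snd PT.snd') (PT.snd PT.snd'))))
      (PT.not (PT.isEmpty (PT.fst PT.snd')))
      (PT.and (PT.comp hS PT.fst') (PT.comp hTb (PT.pair (PT.length PT.fst') (PT.snd PT.snd'))))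
      _ fun x => ?_
    have hit : ∀ k : ℕ, (fun s : List Bool × List Bool × List Bool =>
        (s.1, s.2.1.tail, s.2.2 ++ s.2.2))^[k] (x, true :: x, [true]) =
          (x, (true :: x).drop k, List.replicate (2 ^ k) true) := by
      intro k
      induction k with
      | zero => rfl
      | succ k ih =>
        rw [iterate_succ_apply', ih]
        simp [pow_succ, mul_two]
    refine ⟨x.length + 1, fun k hk => ?_, ?_, ?_⟩
    · rw [hit]; simp; omega
    · rw [hit]; simp
    · rw [hit]
  · obtain ⟨t, c, hc⟩ := ic_bounded_of_P U hU (PT.ofIsPolyTime hP)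
    set A : List Bool → Bool := fun x => S x && Tb (x.length, List.replicate (2 ^ (x.length + 1))
      true) with hA
    obtain ⟨N, hN⟩ := poly_le_exp t
    let F : List (List Bool) := (List.finite_length_le Bool c).toFinset.toList.filter fun p =>
      U.Consistent (fun n => t.eval n) A p
    let j := decodeNat (enc ((List.replicate N false, F), true))
    have hj : j.bits = enc ((List.replicate N false, F), true) := by
      rw [← encodeNat_eq_bits]
      exact encodeNat_decode _
    have hjN : N ≤ j := by
      have a1 := sz_nat_le_self j
      rw [sz_nat, ← Nat.size_eq_bits_len, hj] at a1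
      have a2 : sz ((List.replicate N false, F), true) ≤ j := a1
      rw [sz_prod, sz_prod, PT.sz_listBool, List.length_replicate] at a2
      omega
    let has : ℕ → Prop := fun m => ∃ y : List Bool, y.length = m ∧ S y = true
    have hhas : {m | has m}.Infinite := by
      apply Set.infinite_of_forall_exists_gt
      intro m
      obtain ⟨x, hx, hm⟩ := len_of_infinite hinf (m + 1)
      exact ⟨x.length, ⟨x, rfl, hx⟩, by omega⟩
    let n := Nat.nth has j
    have hn1 : has n := Nat.nth_mem_of_infinite hhas j
    have hn2 : Nat.count has n = j := Nat.count_nth_of_infinite hhas j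
    have hn3 : j ≤ n := Nat.le_nth fun hf => absurd hf hhas
    let u := List.replicate (2 ^ (n + 1)) true
    have hcu : ∀ m ≤ n, (cand (m, u)).isEmpty = false ↔ has m := by
      intro m hm
      rw [List.isEmpty_eq_false_iff_exists_mem]
      simp only [cand, u, List.mem_filter, List.mem_range, List.length_replicate,
        Bool.and_eq_true, decide_eq_true_eq]
      constructor
      · rintro ⟨i, _, a1, a2⟩
        exact ⟨_, a1, a2⟩
      · rintro ⟨y, a1, a2⟩
        obtain ⟨i, hi, rfl⟩ := exists_str y
        exact ⟨i, hi.trans_le (Nat.pow_le_pow_right (by omega) (by omega)), a1, a2⟩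
    have hidxn : idx (n, u) = j := by
      rw [← hn2, Nat.count, List.countP_eq_length_filter]
      have hle : n ≤ 2 ^ (n + 1) := by
        have : n + 1 < 2 ^ (n + 1) := Nat.lt_two_pow_self
        omega
      obtain ⟨k, hk⟩ := Nat.exists_eq_add_of_le hle
      simp only [idx, u, List.length_replicate]
      rw [show List.range (2 ^ (n + 1)) = List.range (n + k) by rw [← hk], List.range_add,
        List.filter_append]
      rw [(List.filter_eq_nil_iff (l := (List.range k).map (n + ·))).2 (by simp), List.append_nil]
      congr 1
      refine List.filter_congr fun m hm => ?_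
      have hm' : m < n := List.mem_range.1 hm
      have := hcu m hm'.le
      rw [Bool.eq_iff_iff]
      simp only [Bool.and_eq_true, decide_eq_true_eq, Bool.not_eq_true', hm', true_and]
      exact this
    let y := str ((cand (n, u)).headD 0)
    have hy : y.length = n ∧ S y = true := by
      have h0 := (hcu n le_rfl).2 hn1
      have hmem : (cand (n, u)).headD 0 ∈ cand (n, u) := by
        rcases h : cand (n, u) with _ | ⟨a, l⟩
        · rw [h] at h0; simp at h0
        · simp
      have := (List.mem_filter.1 hmem).2
      simpa only [Bool.and_eq_true, decide_eq_true_eq] using this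
    have hAy : A y = !F.any fun p => decide (sim ((p, y), u) = (true, [true])) := by
      simp only [hA, hy.1, hy.2, Bool.true_and]
      show Tb (n, u) = _
      simp only [Tb, hidxn, hj, epr]
      rfl
    have htu : t.eval y.length ≤ u.length := by
      rw [hy.1]; simpa [u] using hN n (by omega)
    have hF : (F.any fun p => decide (sim ((p, y), u) = (true, [true]))) = A y := by
      rw [Bool.eq_iff_iff]
      simp only [List.any_eq_true, decide_eq_true_eq, F, List.mem_filter, Finset.mem_toList,
        Set.Finite.mem_toFinset, Set.mem_ofPred_eq]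
      constructor
      · rintro ⟨p, ⟨_, a1⟩, a2⟩
        have a3 := (h2 _ _ _ _).2 a2
        rcases a1 y with h | h
        · simpa using (h.unique a3)
        · simpa using (h.unique a3)
      · intro h
        obtain ⟨p, a1, a2, a3⟩ := Machine.exists_of_ic_le (hc y)
        rw [h] at a3
        exact ⟨p, ⟨a1, a2⟩, (h2 _ _ _ _).1 (a3.mono htu)⟩
    rw [hF] at hAy
    simp at hAy

theorem ic_small (U : Machine) (hU : Optimal U) {S : List Bool → Bool} (hS : PT S)
    (T : ℕ → Bool) : ∃ (t : Polynomial ℕ) (c : ℕ), ∀ x,
      (S x = false → U.ic (fun n => t.eval n) (fun x => S x && T x.length) x ≤ c) ∧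
      (5 ≤ x.length → U.ic (fun n => t.eval n) (fun x => S x && T x.length) x ≤
        (x.length.size + (1 + c) : ℕ)) := by
  let G : List Bool × List Bool → List Bool := fun a =>
    bif S a.1 then
      (bif decide (a.2.tail = a.1.length.bits) && (decide (a.2.length < a.1.length) &&
        !a.2.isEmpty) then [a.2.headD false] else [])
    else [false]
  have hG : PT G := PT.cond (PT.comp hS PT.fst') (PT.cond
    (PT.and (PT.eq (PT.tail PT.snd') (PT.bits (PT.length PT.fst')))
      (PT.and (PT.lt (PT.length PT.snd') (PT.length PT.fst')) (PT.not (PT.isEmpty PT.snd'))))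
    (PT.cons (PT.headD PT.snd' false) (PT.const [])) (PT.const [])) (PT.const _)
  obtain ⟨M, q, hM⟩ := exists_lazy hG
  obtain ⟨c, hc⟩ := hU M
  have key : ∀ (x : List Bool) (m : ℕ),
      M.ic (fun n => q.eval n) (fun x => S x && T x.length) x ≤ m →
      U.ic (fun n => (Polynomial.C c * q * q + Polynomial.C c).eval n)
        (fun x => S x && T x.length) x ≤ (m + c : ℕ) := fun x m h =>
    (Machine.ic_anti (log_bound c q) _ x).trans ((hc _ (fun n => q.eval n) x).1.trans (by
      push_cast
      exact add_le_add h le_rfl))
  refine ⟨Polynomial.C c * q * q + Polynomial.C c, c, fun x => ⟨fun hx => ?_, fun hx => ?_⟩⟩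
  · have := key x 0 (Machine.ic_le (p := []) (fun z => ?_) ?_)
    · simpa using this
    · have := hM [] z
      cases h : S z
      · left; simpa [G, h] using this
      · right; simpa [G, h] using this
    · simpa [G, hx] using hM [] x
  · have hsz : x.length.size + 1 < x.length := by
      have : ∀ n, 5 ≤ n → n < 2 ^ (n - 2) := by
        intro n hn
        induction n, hn using Nat.le_induction with
        | base => norm_num
        | succ n hn ih =>
          rw [show n + 1 - 2 = (n - 2) + 1 by omega, pow_succ]; omega
      have := Nat.size_le.2 (this _ hx)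
      omega
    have hl : (T x.length :: x.length.bits).length = x.length.size + 1 := by
      simp [Nat.size_eq_bits_len]
    have := key x (x.length.size + 1) (by
      rw [← hl]
      refine Machine.ic_le (p := T x.length :: x.length.bits) (fun z => ?_) ?_
      · have := hM (T x.length :: x.length.bits) z
        cases h : S z
        · left; simpa [G, h] using this
        · by_cases hcnd : (decide (((T x.length :: x.length.bits).take z.length).tail =
              z.length.bits) && (decide (((T x.length :: x.length.bits).take z.length).length <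
              z.length) && !((T x.length :: x.length.bits).take z.length).isEmpty)) = true
          · left
            have hcnd' := hcnd
            simp only [Bool.and_eq_true, decide_eq_true_eq] at hcnd'
            obtain ⟨a1, a2, _⟩ := hcnd'
            have a3 : (T x.length :: x.length.bits).take z.length =
                T x.length :: x.length.bits := by
              apply List.take_of_length_le
              rw [List.length_take] at a2
              omega
            rw [a3] at a1
            have a4 : x.length = z.length := by
              rw [← ofB_bits x.length, ← ofB_bits z.length]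
              exact congrArg ofB a1
            simp only [G, h, hcnd, cond_true] at this
            rw [a3] at this
            simpa [a4] using this
          · right
            simp only [G, h, Bool.not_eq_true _ ▸ hcnd, cond_true, cond_false] at this
            exact this
      · have := hM (T x.length :: x.length.bits) x
        have a3 : (T x.length :: x.length.bits).take x.length = T x.length :: x.length.bits :=
          List.take_of_length_le (by omega)
        rw [a3] at this
        cases h : S x
        · simpa [G, h] using this
        · have a4 : x.length.bits.length + 1 < x.length := by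
            rw [Nat.size_eq_bits_len]; exact hsz
          simpa [G, h, a4] using this)
    rwa [add_assoc] at this

theorem printable_of_hard (U : Machine) (hU : Optimal U)
    (H : ∀ A : List Bool → Bool, Recursive A → A ∉ N68a2faeb.P → HasHardInstances U A)
    (S : List Bool → Bool) (hS : S ∈ N68a2faeb.P) (hinf : {x | S x = true}.Infinite) :
    ∃ T ⊆ {x | S x = true}, T.Infinite ∧ Printable T := by
  have hS' : PT S := PT.ofIsPolyTime hS
  obtain ⟨T, h1, h2⟩ := exists_diag U hU hS' hinf
  obtain ⟨t, c, hc⟩ := ic_small U hU hS' T
  obtain ⟨t', c', hX⟩ := H _ h1 h2 t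
  refine ⟨_, fun x hx => hx.1, ?_, printable_low U t' hS' (1 + c + c')⟩
  intro hfin
  apply hX
  refine (((finite_kc_le U (fun n => t'.eval n) (c + c')).union
    (List.finite_length_lt Bool 5)).union hfin).subset fun x hx => ?_
  have hx' : U.kc (fun n => t'.eval n) x ≤
    U.ic (fun n => t.eval n) (fun x => S x && T x.length) x + c' := hx
  cases h : S x
  · left; left
    exact hx'.trans (by push_cast; exact add_le_add ((hc x).1 h) le_rfl)
  · by_cases h5 : x.length < 5
    · left; right; exact h5
    · right
      refine ⟨h, hx'.trans ?_⟩
      have := add_le_add ((hc x).2 (by omega)) (le_refl (c' : ℕ∞))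
      refine this.trans (le_of_eq ?_)
      push_cast; ring

end Pool.Agent.Lib.MP_66fb70_lc
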