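import Pool.Agent.Lib.MP_66fb70_lc.Defs

/-! Hard instances measured through an arbitrary recursive gap function. -/

namespace Pool.Agent.Lib.MP_66fb70_lc

open Turing

/-- `f` is recursive: a Turing machine that halts on every input computes it in binary. -/
def RecFun (f : ℕ → ℕ) : Prop :=
  Nonempty (TM2Computable (N487b59b3.bitEncode : ℕ → List Bool)
    (N487b59b3.bitEncode : ℕ → List Bool) f)

/-- For every polynomial `t` there is a polynomial `t'` with
`f (C^{t'}(x)) ≤ ic^t(x : A)` and `C^{t'}(x)` finite for infinitely many `x`. -/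
def HasGapInstances (U : Machine) (f : ℕ → ℕ) (A : List Bool → Bool) : Prop :=
  ∀ t : Polynomial ℕ, ∃ t' : Polynomial ℕ,
    {x : List Bool | ∃ k : ℕ, U.kc (fun n => t'.eval n) x = k ∧
      (f k : ℕ∞) ≤ U.ic (fun n => t.eval n) A x}.Infinite

/-- `A` is P-selective: a polynomial time function picks one of two strings, and picks a member
of `A` whenever one of the two is a member. -/
def Selective (A : List Bool → Bool) : Prop :=
  ∃ s : List Bool × List Bool → List Bool, N68a2faeb.IsPolyTime s ∧
    ∀ x y, (s (x, y) = x ∨ s (x, y) = y) ∧ (A x = true ∨ A y = true → A (s (x, y)) = true)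

/-- `A` consists of the members of a set in P whose lengths lie in a set `T`. -/
def LengthCut (A : List Bool → Bool) : Prop :=
  ∃ S ∈ N68a2faeb.P, ∃ T : ℕ → Bool, ∀ x, A x = (S x && T x.length)

end Pool.Agent.Lib.MP_66fb70_lc
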