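import Pool.Agent.Lib.MP_66fb70_lc.Forth
import Pool.Agent.Lib.MP_66fb70_lc.GDefs

/-! Printable subsets give instances that are hard through every recursive gap. -/

namespace Pool.Agent.Lib.MP_66fb70_lc

open Turing Function Pool.Agent.Lib.helper82 Computability

theorem exists_ev {f : ℕ → ℕ} (hf : RecFun f) :
    ∃ ev : ℕ × List Bool → Bool × ℕ, PT ev ∧ ∀ k, ∃ m, ∀ clock : List Bool,
      (m ≤ clock.length → (ev (k, clock)).1 = true) ∧
        ((ev (k, clock)).1 = true → (ev (k, clock)).2 = f k) := by
  obtain ⟨tm⟩ := hf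
  obtain ⟨sim, h1, h2⟩ := exists_sim_flag tm.toTM2ComputableAux
  have h3 : PT fun a : ℕ × List Bool => sim (enc a.1, a.2) :=
    PT.comp h1 (PT.pair (PT.comp PT.encList PT.fst') PT.snd')
  refine ⟨fun a => ((sim (enc a.1, a.2)).1, ofB (sim (enc a.1, a.2)).2),
    PT.pair (PT.fst h3) (PT.ofB_pt (PT.snd h3)),
    fun k => ⟨(tm.outputsFun k).steps, fun clock => ?_⟩⟩
  have h4 := h2 (enc k) (enc (f k)) clock _ ⟨⟨tm.outputsFun k, le_rfl⟩⟩
  refine ⟨h4.1, fun h => ?_⟩
  have h5 := h4.2 h
  show ofB (sim (enc k, clock)).2 = f k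
  rw [h5, enc_nat, encodeNat_eq_bits, ofB_bits]

/-- A number in unary, cut off at the length of a clock. -/
def una (v n : ℕ) : List Bool := ((List.range n).filter fun i => decide (i < v)).map fun _ => true

theorem una_pt {α : Type} [Enc α] {v : α → ℕ} {u : α → List Bool} (hv : PT v) (hu : PT u) :
    PT fun a => una (v a) (u a).length :=
  PT.map (F := fun _ (_ : ℕ) => true)
    (PT.filter (P := fun a i => decide (i < v a)) (PT.range hu)
      (PT.lt PT.snd' (PT.comp hv PT.fst'))) (PT.const true)

theorem una_eq {v n : ℕ} (h : v ≤ n) : una v n = List.replicate v true := by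
  obtain ⟨k, rfl⟩ := Nat.exists_eq_add_of_le h
  rw [una, List.range_add, List.filter_append,
    (List.filter_eq_nil_iff (l := (List.range k).map (v + ·))).2 (by simp), List.append_nil,
    List.filter_eq_self.2 (by simp)]
  simp

theorem gap_of_printable (U : Machine) (hU : Optimal U) {f : ℕ → ℕ} (hf : RecFun f)
    (hm : Monotone f)
    (H : ∀ S ∈ N68a2faeb.P, {x | S x = true}.Infinite →
      ∃ T ⊆ {x | S x = true}, T.Infinite ∧ Printable T)
    (A : List Bool → Bool) (hA : Recursive A) (hP : A ∉ N68a2faeb.P) :
    HasGapInstances U f A := by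
  classical
  intro t
  obtain ⟨dec, hd, hdec⟩ := exists_dec hA
  obtain ⟨run, hr, hrun⟩ := exists_run U t
  obtain ⟨ev, he, hev⟩ := exists_ev hf
  have hq := exists_quiet hdec hrun hr hP
  obtain ⟨T, hTS, hTi, F, hF, hFT⟩ := H (record dec run) (record_pt hd hr).isPolyTime
    (record_infinite hq)
  have hF' : PT F := PT.ofIsPolyTime hF
  let e : List Bool × List Bool → Bool × ℕ := fun s => ev (s.1.length + s.1.length, s.2)
  have hE : PT e := PT.comp he (PT.pair (PT.add (PT.length PT.fst') (PT.length PT.fst')) PT.snd')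
  let cand : List Bool × List Bool → List (List Bool) := fun s =>
    (F s.2).filter fun x => decide (x.length = s.2.length) && ((e s).1 &&
      (decide ((e s).2 ≤ s.2.length) && (decide (s.1.length ≤ s.2.length) &&
        quiet dec run (2 ^ (una (e s).2 s.2.length).length, x))))
  have hE' : PT fun a : (List Bool × List Bool) × List Bool => e a.1 := PT.comp hE PT.fst'
  have hcand : PT cand := PT.filter (PT.comp hF' PT.snd')
    (PT.and (PT.eq (PT.length PT.snd') (PT.length (PT.snd PT.fst')))
      (PT.and (PT.fst hE') (PT.and (PT.le (PT.snd hE') (PT.length (PT.snd PT.fst')))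
        (PT.and (PT.le (PT.length (PT.fst PT.fst')) (PT.length (PT.snd PT.fst')))
          (PT.comp (quiet_pt hd hr) (PT.pair
            (PT.powU (PT.const 2) (una_pt (PT.snd hE') (PT.snd PT.fst'))) PT.snd'))))))
  obtain ⟨M, q, hM⟩ := exists_search (σ := List Bool × List Bool) (init := fun p => (p, []))
    (st := fun s => (s.1, false :: s.2)) (go := fun s => (cand s).isEmpty)
    (out := fun s => (cand s).headD []) (PT.pair PT.id (PT.const []))
    (PT.pair PT.fst' (PT.cons (PT.const false) PT.snd')) (PT.isEmpty hcand) (PT.headD hcand [])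
  have hit : ∀ (p : List Bool) (k : ℕ),
      (fun s : List Bool × List Bool => (s.1, false :: s.2))^[k] (p, []) =
        (p, List.replicate k false) := by
    intro p k
    induction k with
    | zero => rfl
    | succ k ih => rw [iterate_succ_apply', ih]; rfl
  simp only [hit] at hM
  obtain ⟨c, hc⟩ := hU M
  let q' : Polynomial ℕ := (Polynomial.X + 1) * q.comp (9 * Polynomial.X + 1)
  refine ⟨Polynomial.C c * q' * q' + Polynomial.C c, infinite_of_len fun k0 => ?_⟩
  obtain ⟨k, hk0, hkc⟩ : ∃ k, k0 ≤ k ∧ c ≤ k := ⟨max k0 c, le_max_left _ _, le_max_right _ _⟩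
  let p : List Bool := List.replicate k false
  obtain ⟨m, hm'⟩ := hev (k + k)
  have hex : ∃ n, (cand (p, List.replicate n false)).isEmpty = false := by
    obtain ⟨N, hN⟩ := record_quiet hq (2 ^ f (k + k))
    obtain ⟨x, hx, hl⟩ := len_of_infinite hTi (N + m + f (k + k) + k)
    refine ⟨x.length, ?_⟩
    have a1 := (hm' (List.replicate x.length false)).1 (by simp; omega)
    have a2 := (hm' (List.replicate x.length false)).2 a1
    have : x ∈ cand (p, List.replicate x.length false) := by
      simp only [cand, e, List.mem_filter, p, List.length_replicate, a1, a2]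
      refine ⟨(hFT _ _).2 ⟨hx, le_rfl⟩, ?_⟩
      rw [una_eq (by omega), List.length_replicate, hN x (hTS hx) (by omega)]
      simp
      omega
    rcases h : cand (p, List.replicate x.length false) with _ | ⟨a, l⟩
    · rw [h] at this; simp at this
    · rfl
  let n := Nat.find hex
  let x := (cand (p, List.replicate n false)).headD []
  have hx : x ∈ cand (p, List.replicate n false) := by
    have := Nat.find_spec hex
    simp only [x]
    rcases h : cand (p, List.replicate n false) with _ | ⟨a, l⟩
    · simp only [n] at h; rw [h] at this; simp at this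
    · simp
  simp only [cand, e, List.mem_filter, p, List.length_replicate, Bool.and_eq_true,
    decide_eq_true_eq] at hx
  obtain ⟨_, hx1, hx3, hx4, hkn, hx2⟩ := hx
  rw [(hm' _).2 hx3] at hx4 hx2
  rw [una_eq hx4, List.length_replicate] at hx2
  have hout : M.Out p [] [] (q'.eval x.length) x := by
    have := hM p n (9 * n + 1) (by simp [p]; omega)
      (fun j hj => by simpa using Nat.find_min hex hj) (Nat.find_spec hex) (fun j hj => by
        rw [sz_prod, PT.sz_listBool, PT.sz_listBool]
        simp [p]; omega)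
    rw [hx1]
    exact this.mono (by simp [q', Polynomial.eval_comp])
  refine ⟨x, ?_, by omega⟩
  have h1 : M.kc (fun n => q'.eval n) x ≤ k := by
    simpa [p] using Machine.kc_le (t := fun n => q'.eval n) hout
  have h2 := (hc A (fun n => q'.eval n) x).2
  have h3 := Machine.kc_anti (M := U) (log_bound c q') x
  have h4 := le_ic_of_quiet hdec hrun hx2
  have h5 : U.kc (fun n => (Polynomial.C c * q' * q' + Polynomial.C c).eval n) x ≤ (k + k : ℕ) := by
    refine h3.trans (h2.trans ?_)
    push_cast
    exact add_le_add h1 (by exact_mod_cast hkc)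
  obtain ⟨k', hk'⟩ := ENat.ne_top_iff_exists.1 (ne_top_of_le_ne_top (ENat.coe_ne_top _) h5)
  refine ⟨k', hk'.symm, le_trans ?_ h4⟩
  rw [← hk'] at h5
  exact_mod_cast hm (by exact_mod_cast h5)

end Pool.Agent.Lib.MP_66fb70_lc
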