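import Pool.Agent.Lib.MP_66fb70_lc.GapA

/-! Without printable subsets even the weakest recursive gap fails. -/

namespace Pool.Agent.Lib.MP_66fb70_lc

open Turing Function Pool.Agent.Lib.helper82 Computability

/-- A slowly growing function that is easy to compute. -/
theorem exists_slow {f : ℕ → ℕ} (hf : RecFun f) (hm : Monotone f) (hu : ∀ b, ∃ k, b ≤ f k) :
    ∃ w : ℕ → ℕ, (PT fun u : List Bool => w u.length) ∧ Monotone w ∧ (∀ b, ∃ n, b ≤ w n) ∧
      (∀ n, w n ≤ n) ∧ ∀ n, w n ≤ f n.size := by
  obtain ⟨ev, he, hev⟩ := exists_ev hf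
  let ok : ℕ → ℕ → Bool := fun n i => (List.range n).any fun m => (List.range n).any fun l =>
    decide (m ≤ n.bits.length) && ((ev (m, una l n)).1 && decide (i < (ev (m, una l n)).2))
  have hok : ∀ n i, ok n i = true ↔ ∃ m < n, ∃ l < n, m ≤ n.size ∧
      (ev (m, List.replicate l true)).1 = true ∧ i < f m := by
    intro n i
    simp only [ok, List.any_eq_true, List.mem_range, Bool.and_eq_true, decide_eq_true_eq,
      Nat.size_eq_bits_len]
    refine exists_congr fun m => and_congr_right fun _ => exists_congr fun l =>
      and_congr_right fun hl => and_congr_right fun _ => ?_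
    rw [una_eq hl.le]
    refine and_congr_right fun h => ?_
    obtain ⟨r, hr⟩ := hev m
    rw [(hr _).2 h]
  have hcard : ∀ n, ((List.range n).filter (ok n)).length =
      ((Finset.range n).filter fun i => ok n i = true).card := fun n => by
    rw [← List.toFinset_card_of_nodup (List.nodup_range.filter _), List.toFinset_filter,
      List.toFinset_range]
  refine ⟨fun n => ((List.range n).filter (ok n)).length, ?_, fun a b hab => ?_, fun b => ?_,
    fun n => ?_, fun n => ?_⟩
  · have h1 : PT fun a : ((List Bool × ℕ) × ℕ) × ℕ => ev (a.1.2, una a.2 a.1.1.1.length) :=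
      PT.comp he (PT.pair (PT.snd PT.fst') (una_pt PT.snd' (PT.fst (PT.fst PT.fst'))))
    exact PT.length (PT.filter (P := fun (u : List Bool) i => ok u.length i) (PT.range PT.id)
      (PT.any (PT.range PT.fst') (PT.any (PT.range (PT.fst PT.fst'))
        (PT.and (PT.le (PT.snd PT.fst') (PT.length (PT.bits (PT.length (PT.fst (PT.fst PT.fst'))))))
          (PT.and (PT.fst h1) (PT.lt (PT.snd (PT.fst PT.fst')) (PT.snd h1)))))))
  · simp only [hcard]
    refine Finset.card_le_card fun i hi => ?_
    rw [Finset.mem_filter, Finset.mem_range, hok] at hi ⊢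
    obtain ⟨h1, m, h2, l, h3, h4, h5⟩ := hi
    exact ⟨by omega, m, by omega, l, by omega, h4.trans (Nat.size_le_size hab), h5⟩
  · obtain ⟨m, h1⟩ := hu b
    obtain ⟨r, hr⟩ := hev m
    refine ⟨2 ^ m + r + b + 1, ?_⟩
    simp only [hcard]
    refine le_trans (Finset.card_range b).ge (Finset.card_le_card fun i hi => ?_)
    rw [Finset.mem_range] at hi
    rw [Finset.mem_filter, Finset.mem_range, hok]
    have h2 : m < 2 ^ m := Nat.lt_two_pow_self
    exact ⟨by omega, m, by omega, r, by omega, (Nat.lt_size.2 (by omega)).le,
      (hr _).1 (by simp), by omega⟩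
  · simpa using List.length_filter_le (ok n) (List.range n)
  · simp only [hcard]
    refine le_trans (Finset.card_le_card fun i hi => ?_) (Finset.card_range _).le
    rw [Finset.mem_filter, hok] at hi
    obtain ⟨-, m, -, l, -, h4, -, h5⟩ := hi
    exact Finset.mem_range.2 (h5.trans_le (hm h4))

theorem head_filter_range {p : ℕ → Bool} {N j : ℕ} (hj : j < N) (hp : p j = true)
    (hmin : ∀ i < j, ¬ p i = true) : ((List.range N).filter p).headD 0 = j := by
  obtain ⟨k, rfl⟩ := Nat.exists_eq_add_of_lt hj
  rw [add_assoc, List.range_add, List.filter_append,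
    (List.filter_eq_nil_iff (l := List.range j)).2 (fun i hi => hmin i (List.mem_range.1 hi)),
    List.range_succ_eq_map]
  simp [hp]

theorem pow_le_index {j : ℕ} (h : 1 ≤ (str j).length) : 2 ^ (str j).length ≤ j := by
  simp only [str, List.length_dropLast, Nat.size_eq_bits_len] at h ⊢
  exact Nat.lt_size.1 (by omega)

/-- A recursive subset of `S` outside P that is constant on windows of lengths. -/
theorem exists_diag_slow (U : Machine) (hU : Optimal U) {S : List Bool → Bool} (hS : PT S)
    (hinf : {x | S x = true}.Infinite) {w : ℕ → ℕ} (hw : PT fun u : List Bool => w u.length)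
    (hm : Monotone w) (hu : ∀ b, ∃ n, b ≤ w n) (hle : ∀ n, w n ≤ n) :
    ∃ (A : List Bool → Bool) (D : ℕ × List Bool → Bool), PT D ∧
      (∀ x, A x = (S x && D (w x.length, List.replicate (2 ^ (x.length + 1)) true))) ∧
      Recursive A ∧ A ∉ N68a2faeb.P ∧
      ∀ x y, S x = true → S y = true → w x.length = w y.length → A x = A y := by
  classical
  obtain ⟨sim, h1, h2⟩ := U.exists_msim
  obtain ⟨pr, hpr, epr⟩ :=
    (((Prs.list Prs.bool).prod (Prs.list (Prs.list Prs.bool))).prod Prs.bool)
  let cand : ℕ × List Bool → List ℕ := fun a =>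
    (List.range a.2.length).filter fun j => decide (w (str j).length = a.1) && S (str j)
  have hcand : PT cand := PT.filter (PT.range PT.snd')
    (PT.and (PT.eq (PT.comp (G := fun u : List Bool => w u.length) hw (str_pt PT.snd'))
      (PT.fst PT.fst')) (PT.comp hS (str_pt PT.snd')))
  let idx : ℕ × List Bool → ℕ := fun a =>
    ((List.range a.2.length).filter fun m => decide (m < a.1) && !(cand (m, a.2)).isEmpty).length
  have hidx : PT idx := PT.length (PT.filter (PT.range PT.snd')
    (PT.and (PT.lt PT.snd' (PT.fst PT.fst'))
      (PT.not (PT.isEmpty (PT.comp hcand (PT.pair PT.snd' (PT.snd PT.fst')))))))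
  let clk : ℕ × List Bool → List Bool := fun a =>
    una ((cand a).headD 0) a.2.length ++ una ((cand a).headD 0) a.2.length
  have hclk : PT clk := PT.append (una_pt (PT.headD hcand 0) PT.snd')
    (una_pt (PT.headD hcand 0) PT.snd')
  let Tb : ℕ × List Bool → Bool := fun a =>
    !(pr (idx a).bits).1.2.any fun p =>
      decide (sim ((p, str ((cand a).headD 0)), clk a) = (true, [true]))
  have hTb : PT Tb := PT.not (PT.any (PT.snd (PT.fst (PT.comp hpr (PT.bits hidx))))
    (PT.eq (PT.comp h1 (PT.pair (PT.pair PT.snd' (str_pt (PT.headD (PT.comp hcand PT.fst') 0)))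
      (PT.comp hclk PT.fst'))) (PT.const _)))
  let has : ℕ → Prop := fun v => ∃ j, (decide (w (str j).length = v) && S (str j)) = true
  have hhas : ∀ x, S x = true → has (w x.length) := fun x hx => by
    obtain ⟨j, -, rfl⟩ := exists_str x
    exact ⟨j, by simp [hx]⟩
  have hfst : ∀ v, has v → ∃ J, (decide (w (str J).length = v) && S (str J)) = true ∧
      ∀ i < J, ¬ (decide (w (str i).length = v) && S (str i)) = true := fun v h =>
    ⟨_, Nat.find_spec h, fun i hi => Nat.find_min h hi⟩
  have key : ∀ x, S x = true → ∀ J, (decide (w (str J).length = w x.length) && S (str J)) = true →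
      (∀ i < J, ¬ (decide (w (str i).length = w x.length) && S (str i)) = true) →
      Tb (w x.length, List.replicate (2 ^ (x.length + 1)) true) =
        !(pr (Nat.count has (w x.length)).bits).1.2.any fun p => decide (sim ((p, str J),
          List.replicate (J + J) true) = (true, [true])) := by
    intro x hx J h h'
    obtain ⟨n, hn⟩ : ∃ n, x.length = n := ⟨_, rfl⟩
    rw [hn] at h h' ⊢
    set u := List.replicate (2 ^ (n + 1)) true with hu'
    have hul : u.length = 2 ^ (n + 1) := by simp [hu']
    have hJ : J < u.length := by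
      obtain ⟨j, hj, e⟩ := exists_str x
      by_contra hh
      exact h' j (by rw [hn] at hj; omega) (by simp [e, hx, hn])
    have e1 : (cand (w n, u)).headD 0 = J := head_filter_range hJ h h'
    have hcu : ∀ m < w n, (cand (m, u)).isEmpty = false ↔ has m := by
      intro m hm'
      rw [List.isEmpty_eq_false_iff_exists_mem]
      simp only [cand, List.mem_filter, List.mem_range]
      refine ⟨fun ⟨i, _, a⟩ => ⟨i, a⟩, fun ⟨i, a⟩ => ?_⟩
      obtain ⟨j, hj, e⟩ := exists_str (str i)
      refine ⟨j, hj.trans_le ?_, by rw [e]; exact a⟩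
      simp only [Bool.and_eq_true, decide_eq_true_eq] at a
      have : (str i).length ≤ n := by
        by_contra hh
        have := hm (show n ≤ (str i).length by omega)
        omega
      rw [hul]
      exact Nat.pow_le_pow_right (by omega) (by omega)
    have e2 : idx (w n, u) = Nat.count has (w n) := by
      rw [Nat.count, List.countP_eq_length_filter]
      have hle' : w n ≤ u.length := by
        have : n + 1 < 2 ^ (n + 1) := Nat.lt_two_pow_self
        have := hle n
        omega
      obtain ⟨k, hk⟩ := Nat.exists_eq_add_of_le hle'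
      simp only [idx]
      rw [hk, List.range_add, List.filter_append,
        (List.filter_eq_nil_iff (l := (List.range k).map (w n + ·))).2 (by simp), List.append_nil]
      congr 1
      refine List.filter_congr fun m hm' => ?_
      have hm'' : m < w n := List.mem_range.1 hm'
      have := hcu m hm''
      rw [Bool.eq_iff_iff]
      simp only [Bool.and_eq_true, decide_eq_true_eq, Bool.not_eq_true', hm'', true_and]
      exact this
    simp only [Tb, clk, e1, e2, una_eq hJ.le, List.replicate_append_replicate]
  refine ⟨fun x => S x && Tb (w x.length, List.replicate (2 ^ (x.length + 1)) true), Tb, hTb,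
    fun x => rfl, ?_, fun hP => ?_, fun x y hx hy e => ?_⟩
  · refine recursive_of_loop (σ := List Bool × List Bool × List Bool)
      (init := fun x => (x, true :: x, [true])) (st := fun s => (s.1, s.2.1.tail, s.2.2 ++ s.2.2))
      (go := fun s => !s.2.1.isEmpty) (out := fun s => S s.1 && Tb (w s.1.length, s.2.2))
      (PT.pair PT.id (PT.pair (PT.cons (PT.const true) PT.id) (PT.const _)))
      (PT.pair PT.fst' (PT.pair (PT.tail (PT.fst PT.snd'))
        (PT.append (PT.snd PT.snd') (PT.snd PT.snd'))))
      (PT.not (PT.isEmpty (PT.fst PT.snd')))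
      (PT.and (PT.comp hS PT.fst') (PT.comp hTb (PT.pair
        (PT.comp (G := fun u : List Bool => w u.length) hw PT.fst') (PT.snd PT.snd'))))
      _ fun x => ?_
    have hit : ∀ k : ℕ, (fun s : List Bool × List Bool × List Bool =>
        (s.1, s.2.1.tail, s.2.2 ++ s.2.2))^[k] (x, true :: x, [true]) =
          (x, (true :: x).drop k, List.replicate (2 ^ k) true) := by
      intro k
      induction k with
      | zero => rfl
      | succ k ih =>
        rw [iterate_succ_apply', ih]
        simp [pow_succ, mul_two]
    refine ⟨x.length + 1, fun k hk => ?_, ?_, ?_⟩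
    · rw [hit]; simp; omega
    · rw [hit]; simp
    · rw [hit]
  · obtain ⟨t, c, hc⟩ := ic_bounded_of_P U hU (PT.ofIsPolyTime hP)
    set A : List Bool → Bool := fun x => S x && Tb (w x.length,
      List.replicate (2 ^ (x.length + 1)) true) with hA
    obtain ⟨N, hN⟩ := poly_le_exp t
    let F : List (List Bool) := (List.finite_length_le Bool c).toFinset.toList.filter fun p =>
      U.Consistent (fun n => t.eval n) A p
    let j := decodeNat (enc ((List.replicate (N + 1) false, F), true))
    have hj : j.bits = enc ((List.replicate (N + 1) false, F), true) := by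
      rw [← encodeNat_eq_bits]
      exact encodeNat_decode _
    have hjN : N + 1 ≤ j := by
      have a1 := sz_nat_le_self j
      rw [sz_nat, ← Nat.size_eq_bits_len, hj] at a1
      have a2 : sz ((List.replicate (N + 1) false, F), true) ≤ j := a1
      rw [sz_prod, sz_prod, PT.sz_listBool, List.length_replicate] at a2
      omega
    have hinf' : {m | has m}.Infinite := by
      apply Set.infinite_of_forall_exists_gt
      intro m
      obtain ⟨n, hn⟩ := hu (m + 1)
      obtain ⟨x, hx, hx'⟩ := len_of_infinite hinf n
      have := hm hx'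
      exact ⟨w x.length, hhas x hx, by omega⟩
    obtain ⟨v, hn1, hn2, hn3⟩ : ∃ v, has v ∧ Nat.count has v = j ∧ j ≤ v :=
      ⟨_, Nat.nth_mem_of_infinite hinf' j, Nat.count_nth_of_infinite hinf' j,
        Nat.le_nth fun hf => absurd hf hinf'⟩
    obtain ⟨J, hJ, hJ'⟩ := hfst v hn1
    have hy := hJ
    simp only [Bool.and_eq_true, decide_eq_true_eq] at hy
    obtain ⟨y, hy0⟩ : ∃ y, y = str J := ⟨_, rfl⟩
    rw [← hy0] at hy
    obtain ⟨rfl, hy2⟩ := hy
    let u := List.replicate (J + J) true
    have hAy : A y = !F.any fun p => decide (sim ((p, y), u) = (true, [true])) := by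
      simp only [hA, hy2, Bool.true_and]
      rw [key y hy2 J hJ hJ', hn2, hj, epr, ← hy0]
    have htu : t.eval y.length ≤ u.length := by
      have a1 := hle y.length
      have a2 := hN y.length (by omega)
      have a3 := pow_le_index (j := J) (by rw [← hy0]; omega)
      rw [← hy0] at a3
      simp only [u, List.length_replicate]
      rw [pow_succ] at a2
      omega
    have hF : (F.any fun p => decide (sim ((p, y), u) = (true, [true]))) = A y := by
      rw [Bool.eq_iff_iff]
      simp only [List.any_eq_true, decide_eq_true_eq, F, List.mem_filter, Finset.mem_toList,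
        Set.Finite.mem_toFinset, Set.mem_ofPred_eq]
      constructor
      · rintro ⟨p, ⟨_, a1⟩, a2⟩
        have a3 := (h2 _ _ _ _).2 a2
        rcases a1 y with h | h
        · simpa using (h.unique a3)
        · simpa using (h.unique a3)
      · intro h
        obtain ⟨p, a1, a2, a3⟩ := Machine.exists_of_ic_le (hc y)
        rw [h] at a3
        exact ⟨p, ⟨a1, a2⟩, (h2 _ _ _ _).1 (a3.mono htu)⟩
    rw [hF] at hAy
    simp at hAy
  · simp only [hx, hy, Bool.true_and]
    obtain ⟨J, hJ, hJ'⟩ := hfst _ (hhas x hx)
    rw [key x hx J hJ hJ', key y hy J (e ▸ hJ) (e ▸ hJ'), e]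

theorem ic_slow (U : Machine) (hU : Optimal U) {S A : List Bool → Bool} (hS : PT S)
    {w : ℕ → ℕ} (hw : PT fun u : List Bool => w u.length) (hle : ∀ n, w n ≤ n)
    (h0 : ∀ x, S x = false → A x = false)
    (h1 : ∀ x y, S x = true → S y = true → w x.length = w y.length → A x = A y) :
    ∃ (t : Polynomial ℕ) (c : ℕ), ∀ x, (S x = false → U.ic (fun n => t.eval n) A x ≤ c) ∧
      (S x = true → 5 ≤ x.length →
        U.ic (fun n => t.eval n) A x ≤ ((w x.length).size + 1 + c : ℕ)) := by
  let G : List Bool × List Bool → List Bool := fun a =>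
    bif S a.1 then
      (bif decide (a.2.tail = (w a.1.length).bits) && (decide (a.2.length < a.1.length) &&
        !a.2.isEmpty) then [a.2.headD false] else [])
    else [false]
  have hG : PT G := PT.cond (PT.comp hS PT.fst') (PT.cond
    (PT.and (PT.eq (PT.tail PT.snd')
      (PT.bits (PT.comp (G := fun u : List Bool => w u.length) hw PT.fst')))
      (PT.and (PT.lt (PT.length PT.snd') (PT.length PT.fst')) (PT.not (PT.isEmpty PT.snd'))))
    (PT.cons (PT.headD PT.snd' false) (PT.const [])) (PT.const [])) (PT.const _)
  obtain ⟨M, q, hM⟩ := exists_lazy hG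
  obtain ⟨c, hc⟩ := hU M
  have key : ∀ (x : List Bool) (m : ℕ), M.ic (fun n => q.eval n) A x ≤ m →
      U.ic (fun n => (Polynomial.C c * q * q + Polynomial.C c).eval n) A x ≤ (m + c : ℕ) :=
    fun x m h => (Machine.ic_anti (log_bound c q) _ x).trans
      ((hc _ (fun n => q.eval n) x).1.trans (by
        push_cast
        exact add_le_add h le_rfl))
  refine ⟨Polynomial.C c * q * q + Polynomial.C c, c, fun x => ⟨fun hx => ?_, fun hS' hx => ?_⟩⟩
  · have := key x 0 (Machine.ic_le (p := []) (fun z => ?_) ?_)
    · simpa using this
    · have := hM [] z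
      cases h : S z
      · left; simpa [G, h, h0 z h] using this
      · right; simpa [G, h] using this
    · simpa [G, hx, h0 x hx] using hM [] x
  · have hsz : (w x.length).size + 1 < x.length := by
      have : ∀ n, 5 ≤ n → n < 2 ^ (n - 2) := by
        intro n hn
        induction n, hn using Nat.le_induction with
        | base => norm_num
        | succ n hn ih =>
          rw [show n + 1 - 2 = (n - 2) + 1 by omega, pow_succ]; omega
      have := Nat.size_le.2 (this _ hx)
      have := Nat.size_le_size (hle x.length)
      omega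
    have hl : (A x :: (w x.length).bits).length = (w x.length).size + 1 := by
      simp [Nat.size_eq_bits_len]
    refine key x _ ?_
    rw [← hl]
    refine Machine.ic_le (p := A x :: (w x.length).bits) (fun z => ?_) ?_
    · have := hM (A x :: (w x.length).bits) z
      cases h : S z
      · left; simpa [G, h, h0 z h] using this
      · by_cases hcnd : (decide (((A x :: (w x.length).bits).take z.length).tail =
            (w z.length).bits) && (decide (((A x :: (w x.length).bits).take z.length).length <
            z.length) && !((A x :: (w x.length).bits).take z.length).isEmpty)) = true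
        · left
          have hcnd' := hcnd
          simp only [Bool.and_eq_true, decide_eq_true_eq] at hcnd'
          obtain ⟨a1, a2, _⟩ := hcnd'
          have a3 : (A x :: (w x.length).bits).take z.length = A x :: (w x.length).bits := by
            apply List.take_of_length_le
            rw [List.length_take] at a2
            omega
          rw [a3] at a1
          have a4 : w x.length = w z.length := by
            rw [← ofB_bits (w x.length), ← ofB_bits (w z.length)]
            exact congrArg ofB a1
          simp only [G, h, hcnd, cond_true] at this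
          rw [a3] at this
          simpa [h1 x z hS' h a4] using this
        · right
          simp only [G, h, Bool.not_eq_true _ ▸ hcnd, cond_true, cond_false] at this
          exact this
    · have := hM (A x :: (w x.length).bits) x
      have a3 : (A x :: (w x.length).bits).take x.length = A x :: (w x.length).bits :=
        List.take_of_length_le (by omega)
      rw [a3] at this
      have a4 : (w x.length).bits.length + 1 < x.length := by
        rw [Nat.size_eq_bits_len]; exact hsz
      simpa [G, hS', a4] using this

/-- One step of a counter that jumps at a tower of lengths. -/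
def jump (s : ℕ × ℕ) (i : ℕ) : ℕ × ℕ := if s.2 < (i + 1).bits.length then (s.1 + 1, i + 1) else s

def tow (n : ℕ) : ℕ × ℕ := (List.range n).foldl jump (0, 0)

theorem tow_succ (n : ℕ) :
    tow (n + 1) = if (tow n).2 < (n + 1).size then ((tow n).1 + 1, n + 1) else tow n := by
  simp only [tow, List.range_succ, List.foldl_append, List.foldl_cons, List.foldl_nil]
  rw [jump, Nat.size_eq_bits_len]

theorem tow_pt : PT fun u : List Bool => tow u.length := by
  refine PT.foldl_add (h := fun _ s i => jump s i) (PT.range PT.id) (PT.const (0, 0))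
    (PT.ite (PT.lt (PT.snd (PT.fst PT.snd')) (PT.length (PT.bits (PT.succ (PT.snd PT.snd')))))
      (PT.pair (PT.succ (PT.fst (PT.fst PT.snd'))) (PT.succ (PT.snd PT.snd'))) (PT.fst PT.snd'))
    (fun u => sz u + 3) (Bd.self.add (Bd.const 3)) fun u s b hb => ?_
  obtain ⟨c, g⟩ := s
  have h1 := List.mem_range.1 hb
  have h2 := length_le_sz u
  have h3 := sz_nat_le_self (b + 1)
  have h4 : sz (c + 1) ≤ sz c + 1 := sz_nat_le.2 (by
    have := lt_two_pow_sz c
    rw [pow_succ]; omega)
  unfold jump
  split_ifs
  · simp only [sz_prod]; omega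
  · omega

theorem tow_le (n : ℕ) : (tow n).1 ≤ n ∧ (tow n).2 ≤ n := by
  induction n with
  | zero => simp [tow]
  | succ n ih =>
    rw [tow_succ]
    split_ifs
    · exact ⟨Nat.succ_le_succ ih.1, le_rfl⟩
    · omega

theorem tow_mono : Monotone fun n => (tow n).1 :=
  monotone_nat_of_le_succ fun n => by rw [tow_succ]; split_ifs <;> simp

theorem tow_near {n m : ℕ} (h : n ≤ m) (h' : m < 2 ^ (n + 1)) : (tow m).1 ≤ (tow n).1 + 1 := by
  have : tow m = tow n ∨ (tow m).1 = (tow n).1 + 1 ∧ n < (tow m).2 := by
    induction m, h using Nat.le_induction with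
    | base => exact Or.inl rfl
    | succ m h ih =>
      have := Nat.size_le.2 h'
      rw [tow_succ]
      rcases ih (by omega) with e | e
      · split_ifs
        · exact Or.inr ⟨by rw [e], by simp; omega⟩
        · exact Or.inl e
      · rw [if_neg (by omega)]
        exact Or.inr e
  rcases this with e | e
  · rw [e]; omega
  · omega

theorem tow_unb (b : ℕ) : ∃ n, b ≤ (tow n).1 := by
  induction b with
  | zero => exact ⟨0, by omega⟩
  | succ b ih =>
    obtain ⟨n, hn⟩ := ih
    have : ∀ m, n ≤ m → tow m = tow n ∨ (tow n).1 < (tow m).1 := by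
      intro m h
      induction m, h using Nat.le_induction with
      | base => exact Or.inl rfl
      | succ m h ih =>
        rw [tow_succ]
        have := tow_mono h
        split_ifs
        · exact Or.inr (by simp at this ⊢; omega)
        · exact ih
    rcases this (2 ^ n + n) (Nat.le_add_left _ _) with e | e
    · refine ⟨2 ^ n + n + 1, ?_⟩
      have := (tow_le n).2
      have : n < (2 ^ n + n + 1).size := Nat.lt_size.2 (by omega)
      rw [tow_succ, e, if_pos (by omega)]
      simpa using hn
    · exact ⟨2 ^ n + n, by omega⟩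

theorem selective_of {S A : List Bool → Bool} (hS : PT S) {w : ℕ → ℕ}
    (hw : PT fun u : List Bool => w u.length) {D : ℕ × List Bool → Bool} (hD : PT D)
    (hA : ∀ x, A x = (S x && D (w x.length, List.replicate (2 ^ (x.length + 1)) true)))
    (h : ∀ x y, S x = true → S y = true → y.length < 2 ^ (x.length + 1) →
      x.length < 2 ^ (y.length + 1) → A x = A y) : Selective A := by
  let e : List Bool × List Bool → ℕ := fun a => 2 ^ (true :: a.1).length
  have he : PT e := PT.powU (PT.const 2) (PT.cons (PT.const true) PT.fst')
  let pick : List Bool × List Bool → List Bool := fun a =>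
    bif D (w a.1.length, una (e a) a.2.length) then a.1 else a.2
  have hpick : PT pick := PT.cond (PT.comp hD (PT.pair
    (PT.comp (G := fun u : List Bool => w u.length) hw PT.fst') (una_pt he PT.snd')))
    PT.fst' PT.snd'
  have hsw : PT fun a : List Bool × List Bool => (a.2, a.1) := PT.pair PT.snd' PT.fst'
  have key : ∀ x y, S x = true → 2 ^ (x.length + 1) ≤ y.length →
      pick (x, y) = bif A x then x else y := fun x y hx hl => by
    simp only [pick, e, List.length_cons, una_eq hl, hA x, hx, Bool.true_and]
  refine ⟨fun a => bif S a.1 then (bif S a.2 then (if e a ≤ a.2.length then pick a else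
    if e (a.2, a.1) ≤ a.1.length then pick (a.2, a.1) else a.1) else a.1) else a.2,
    (PT.cond (PT.comp hS PT.fst') (PT.cond (PT.comp hS PT.snd')
      (PT.ite (PT.le he (PT.length PT.snd')) hpick
        (PT.ite (PT.le (PT.comp he hsw) (PT.length PT.fst')) (PT.comp hpick hsw) PT.fst'))
      PT.fst') PT.snd').isPolyTime, fun x y => ?_⟩
  cases hx : S x
  · simp [hx, hA x]
  cases hy : S y
  · simp [hx, hy, hA y]
  simp only [hx, hy, cond_true, e, List.length_cons]
  split_ifs with h1 h2
  · rw [key x y hx h1]
    cases h3 : A x <;> simp [h3]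
  · rw [key y x hy h2]
    cases h3 : A y <;> simp [h3]
  · simp [h x y hx hy (by omega) (by omega)]

theorem printable_of_gap (U : Machine) (hU : Optimal U) {f : ℕ → ℕ} (hf : RecFun f)
    (hm : Monotone f) (hu : ∀ b, ∃ k, b ≤ f k)
    (H : ∀ A : List Bool → Bool, Recursive A → A ∉ N68a2faeb.P → Selective A → LengthCut A →
      HasGapInstances U f A)
    (S₀ : List Bool → Bool) (hS : S₀ ∈ N68a2faeb.P) (hinf₀ : {x | S₀ x = true}.Infinite) :
    ∃ T ⊆ {x | S₀ x = true}, T.Infinite ∧ Printable T := by
  obtain ⟨b, hinf⟩ : ∃ b : Bool,
      {x | (S₀ x && decide ((tow x.length).1.bodd = b)) = true}.Infinite := by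
    by_contra hh
    push Not at hh
    refine hinf₀ (((hh false).union (hh true)).subset fun x hx => ?_)
    cases h : (tow x.length).1.bodd <;> simpa [h] using hx
  obtain ⟨S, eS⟩ : ∃ S : List Bool → Bool,
    S = fun x => S₀ x && decide ((tow x.length).1.bodd = b) := ⟨_, rfl⟩
  have hS' : PT S := eS ▸ PT.and (PT.ofIsPolyTime hS)
    (PT.eq (PT.bodd (PT.fst tow_pt)) (PT.const b))
  have hS0 : ∀ x, S x = true → S₀ x = true ∧ (tow x.length).1.bodd = b := fun x hx => by
    simpa [eS] using hx
  replace hinf : {x | S x = true}.Infinite := eS ▸ hinf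
  obtain ⟨v, v1, v2, v3, v4, v5⟩ := exists_slow hf hm hu
  let w : ℕ → ℕ := fun n => v (tow n).1
  have w1 : PT fun u : List Bool => w u.length :=
    (PT.comp (G := fun u : List Bool => v u.length) v1 (una_pt (PT.fst tow_pt) PT.id)).congr
      fun u => by simp only [w, una_eq (tow_le u.length).1, List.length_replicate]
  have w2 : Monotone w := v2.comp tow_mono
  have w3 : ∀ b, ∃ n, b ≤ w n := fun b => by
    obtain ⟨m, h⟩ := v3 b
    obtain ⟨n, h'⟩ := tow_unb m
    exact ⟨n, h.trans (v2 h')⟩
  have w4 : ∀ n, w n ≤ n := fun n => (v4 _).trans (tow_le n).1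
  have w5 : ∀ n, w n ≤ f n.size := fun n => (v2 (tow_le n).1).trans (v5 n)
  obtain ⟨A, D, hD, hA, h1, h2, h4⟩ := exists_diag_slow U hU hS' hinf w1 w2 w3 w4
  have h3 : ∀ x, S x = false → A x = false := fun x hx => by simp [hA x, hx]
  have hsel : Selective A := selective_of hS' w1 hD hA fun x y hx hy a1 a2 => by
    refine h4 x y hx hy (congrArg v ?_)
    have a3 := Nat.bodd_add_div2 (tow x.length).1
    have a4 := Nat.bodd_add_div2 (tow y.length).1
    rw [(hS0 x hx).2] at a3
    rw [(hS0 y hy).2] at a4
    rcases le_total x.length y.length with a | a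
    · have := tow_near a a1
      have : (tow x.length).1 ≤ (tow y.length).1 := tow_mono a
      omega
    · have := tow_near a a2
      have : (tow y.length).1 ≤ (tow x.length).1 := tow_mono a
      omega
  obtain ⟨t, c, hc⟩ := ic_slow U hU hS' w1 w4 h3 h4
  obtain ⟨t', hX⟩ := H _ h1 h2 hsel ⟨S, hS'.isPolyTime,
    fun n => D (w n, List.replicate (2 ^ (n + 1)) true), hA⟩ t
  refine ⟨_, fun x hx => (hS0 x hx.1).1, ?_, printable_low U t' hS' 0⟩
  intro hfin
  apply hX
  obtain ⟨k0, hk0⟩ := hu (c + 1)
  obtain ⟨n0, hn0⟩ := w3 (2 * c + 6)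
  refine (((finite_kc_le U (fun n => t'.eval n) k0).union
    (List.finite_length_lt Bool (n0 + 5))).union hfin).subset fun x ⟨k, e, hx⟩ => ?_
  cases h : S x
  · left; left
    have a1 : f k ≤ c := by exact_mod_cast hx.trans ((hc x).1 h)
    have a2 : k ≤ k0 := by
      by_contra hh
      have := hm (show k0 ≤ k by omega)
      omega
    exact e.le.trans (by exact_mod_cast a2)
  · by_cases h5 : x.length < n0 + 5
    · left; right; exact h5
    · right
      refine ⟨h, ?_⟩
      have a1 : f k ≤ (w x.length).size + 1 + c := by
        exact_mod_cast hx.trans ((hc x).2 h (by omega))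
      have a2 := w2 (show n0 ≤ x.length by omega)
      have a3 := w5 x.length
      have a4 : (w x.length).size ≤ w x.length / 2 + 1 := by
        have : w x.length / 2 < 2 ^ (w x.length / 2) := Nat.lt_two_pow_self
        rw [Nat.size_le, pow_succ]
        omega
      have a5 : k ≤ x.length.size := by
        by_contra hh
        have := hm (show x.length.size ≤ k by omega)
        omega
      rw [e]
      exact_mod_cast a5

end Pool.Agent.Lib.MP_66fb70_lc
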