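import Pool.Agent.Lib.MP_66fb70_lc.Defs
import Pool.Agent.Lib.helper82.Sim
import Pool.Agent.Lib.helper82.CookLevin

/-! Simulation of machines, compilation of programs to machines, and unbounded loops. -/

namespace Pool.Agent.Lib.MP_66fb70_lc

open Turing Function Pool.Agent.Lib.helper82

namespace Machine

variable (M : Machine)

abbrev Cfg := TM2.Cfg (fun _ : Fin (M.k + 4) => Bool) M.Λ M.σ

/-- One step, where halted configurations stay fixed. -/
def tstep (c : M.Cfg) : M.Cfg := (TM2.step M.prog c).getD c

theorem tstep_halt {c : M.Cfg} (h : c.l = none) : M.tstep c = c := by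
  obtain ⟨l, v, S⟩ := c
  cases h
  rfl

theorem iter_halt {c : M.Cfg} (h : c.l = none) (n : ℕ) : M.tstep^[n] c = c :=
  iterate_fixed (M.tstep_halt h) n

theorem iter_none (n : ℕ) :
    (fun o => Option.bind o (TM2.step M.prog))^[n] (none : Option M.Cfg) = none :=
  iterate_fixed rfl n

theorem iter_some : ∀ (n : ℕ) (c c' : M.Cfg),
    (fun o => Option.bind o (TM2.step M.prog))^[n] (some c) = some c' → M.tstep^[n] c = c' := by
  intro n
  induction n with
  | zero => intro c c' h; simpa using h
  | succ n ih =>
    intro c c' h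
    rw [iterate_succ_apply] at h ⊢
    obtain ⟨_ | l, v, S⟩ := c
    · have e : Option.bind (some (⟨none, v, S⟩ : M.Cfg)) (TM2.step M.prog) = none := rfl
      rw [e, iter_none] at h
      exact absurd h (by simp)
    · exact ih _ _ h

theorem exists_iter : ∀ (t : ℕ) (c : M.Cfg), (M.tstep^[t] c).l = none →
    ∃ n ≤ t, (fun o => Option.bind o (TM2.step M.prog))^[n] (some c) = some (M.tstep^[t] c) := by
  intro t
  induction t with
  | zero => intro c _; exact ⟨0, le_rfl, rfl⟩
  | succ t ih =>
    intro c h
    obtain ⟨_ | l, v, S⟩ := c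
    · exact ⟨0, Nat.zero_le _, by rw [M.iter_halt rfl]; rfl⟩
    · rw [iterate_succ_apply] at h ⊢
      obtain ⟨n, hn, e⟩ := ih _ h
      exact ⟨n + 1, by omega, by rw [iterate_succ_apply]; exact e⟩

theorem out_iff (p y z : List Bool) (t : ℕ) (w : List Bool) :
    M.Out p y z t w ↔
      (M.tstep^[t] (M.start p y z)).l = none ∧ (M.tstep^[t] (M.start p y z)).stk 3 = w := by
  constructor
  · rintro ⟨n, hn, c, h1, h2, h3⟩
    have e : M.tstep^[t] (M.start p y z) = c := by
      rw [show t = (t - n) + n by omega, iterate_add_apply, M.iter_some n _ _ h1,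
        M.iter_halt h2]
    rw [e]; exact ⟨h2, h3⟩
  · rintro ⟨h1, h2⟩
    obtain ⟨n, hn, e⟩ := M.exists_iter t _ h1
    exact ⟨n, hn, _, e, h1, h2⟩

variable {M}

theorem Out.mono {p y z : List Bool} {t t' : ℕ} {w : List Bool} (h : M.Out p y z t w)
    (hle : t ≤ t') : M.Out p y z t' w := by
  obtain ⟨n, hn, h⟩ := h
  exact ⟨n, hn.trans hle, h⟩

theorem Out.unique {p y z : List Bool} {t t' : ℕ} {w w' : List Bool} (h : M.Out p y z t w)
    (h' : M.Out p y z t' w') : w = w' := by
  have h1 := ((M.out_iff ..).1 (h.mono (le_max_left t t'))).2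
  have h2 := ((M.out_iff ..).1 (h'.mono (le_max_right t t'))).2
  rw [← h1, ← h2]

theorem Consistent.mono {t t' : ℕ → ℕ} {A : List Bool → Bool} {p : List Bool}
    (h : M.Consistent t A p) (hle : ∀ n, t n ≤ t' n) : M.Consistent t' A p := fun z =>
  (h z).imp (fun h => h.mono (hle _)) fun h => h.mono (hle _)

theorem ic_le {t : ℕ → ℕ} {A : List Bool → Bool} {p x : List Bool} (h : M.Consistent t A p)
    (hx : M.Out p [] x (t x.length) [A x]) : M.ic t A x ≤ p.length :=
  sInf_le ⟨p, rfl, h, hx⟩

theorem kc_le {t : ℕ → ℕ} {p x : List Bool} (hx : M.Out p [] [] (t x.length) x) :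
    M.kc t x ≤ p.length :=
  sInf_le ⟨p, rfl, hx⟩

theorem exists_of_sInf_le {P : List Bool → Prop} {m : ℕ}
    (h : sInf {n : ℕ∞ | ∃ p : List Bool, n = p.length ∧ P p} ≤ m) : ∃ p, p.length ≤ m ∧ P p := by
  by_contra hne
  push Not at hne
  have : ((m + 1 : ℕ) : ℕ∞) ≤ sInf {n : ℕ∞ | ∃ p : List Bool, n = p.length ∧ P p} := by
    apply le_sInf
    rintro _ ⟨p, rfl, hp⟩
    have : ¬ p.length ≤ m := fun h => hne p h hp
    exact_mod_cast (by omega : m + 1 ≤ p.length)
  have := this.trans h
  have : m + 1 ≤ m := by exact_mod_cast this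
  omega

theorem exists_of_ic_le {t : ℕ → ℕ} {A : List Bool → Bool} {x : List Bool} {m : ℕ}
    (h : M.ic t A x ≤ m) :
    ∃ p : List Bool, p.length ≤ m ∧ M.Consistent t A p ∧ M.Out p [] x (t x.length) [A x] :=
  exists_of_sInf_le h

theorem exists_of_kc_le {t : ℕ → ℕ} {x : List Bool} {m : ℕ} (h : M.kc t x ≤ m) :
    ∃ p : List Bool, p.length ≤ m ∧ M.Out p [] [] (t x.length) x :=
  exists_of_sInf_le h

theorem ic_anti {t t' : ℕ → ℕ} (hle : ∀ n, t n ≤ t' n) (A : List Bool → Bool) (x : List Bool) :
    M.ic t' A x ≤ M.ic t A x := by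
  apply sInf_le_sInf
  rintro _ ⟨p, rfl, h1, h2⟩
  exact ⟨p, rfl, h1.mono hle, h2.mono (hle _)⟩

theorem kc_anti {t t' : ℕ → ℕ} (hle : ∀ n, t n ≤ t' n) (x : List Bool) :
    M.kc t' x ≤ M.kc t x := by
  apply sInf_le_sInf
  rintro _ ⟨p, rfl, h2⟩
  exact ⟨p, rfl, h2.mono (hle _)⟩

/-- Clocked polynomial time simulation of a machine. -/
theorem exists_msim (M : Machine) :
    ∃ sim : (List Bool × List Bool) × List Bool → Bool × List Bool, PT sim ∧
      ∀ p z clock w : List Bool, M.Out p [] z clock.length w ↔ sim ((p, z), clock) = (true, w) := by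
  classical
  let _ := M.finΛ
  let _ := M.finσ
  let _ : Enc M.σ := finEnc _
  let _ : Enc (Option M.Λ) := finEnc _
  let U : List (Σ _ : Fin (M.k + 4), Bool) := Finset.univ.toList
  have hU : ∀ s, s ∈ U := fun s => by simp [U]
  have hG : ∀ S : Fin (M.k + 4) → List Bool, Good (Γ := fun _ => Bool) U S :=
    fun S k g _ => hU _
  let cd : Fin (M.k + 4) → List Bool → List ℕ := fun k l => l.map fun b => symCode U ⟨k, b⟩
  have hcd : ∀ k, PT (cd k) := fun k =>
    PT.map (F := fun (_ : List Bool) (b : Bool) => symCode U ⟨k, b⟩) PT.id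
      (PT.comp (G := fun b : Bool => symCode U ⟨k, b⟩) (PT.ofFintype _) PT.snd')
  let init : List Bool × List Bool → Option M.Λ × M.σ × List (List ℕ) := fun x =>
    (some M.main, M.init, (((codeS (Γ := fun _ => Bool) U fun _ => []).set (ix (0 : Fin (M.k + 4)))
      (cd 0 x.1)).set (ix (2 : Fin (M.k + 4))) (cd 2 x.2)))
  let out : ℕ → Bool := fun n => (symDec (Γ := fun _ => Bool) U 3 n).getD false
  have hinit : PT init := PT.pair (PT.const _) (PT.pair (PT.const _) (PT.set_const _
    (PT.set_const _ (PT.const _) (PT.comp (hcd 0) PT.fst')) (PT.comp (hcd 2) PT.snd')))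
  have hout : PT out := PT.ofFinite false (List.range' 1 U.length) _ fun n hn => by
    simp [out, symDec_none U 3 n hn]
  obtain ⟨C, hC⟩ := simStep_sz U M.prog
  have hrun := PT.foldl_add
    (h := fun (_ : (List Bool × List Bool) × List Bool) s (_ : Bool) => simStep U M.prog s)
    PT.snd' (PT.comp hinit PT.fst') (PT.comp (simStep_pt U M.prog) (PT.fst PT.snd'))
    (fun _ => C) (Bd.const C) (fun _ s _ _ => hC s)
  refine ⟨_, PT.pair (PT.comp (PT.ofFintype fun l : Option M.Λ => l.isNone) (PT.fst hrun))
    (PT.map (F := fun _ n => out n) (PT.getD_const [] (ix (3 : Fin (M.k + 4)))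
      (PT.snd (PT.snd hrun))) (PT.comp hout PT.snd')), ?_⟩
  intro p z clock w
  have hstep : ∀ c : M.Cfg, simStep U M.prog (codeC U c) = codeC U (M.tstep c) := by
    rintro ⟨_ | l, v, S⟩
    · rfl
    · exact (simAux_correct U (M.prog l) v S (hG S) fun s _ => hU s).1
  have hiter : ∀ (n : ℕ) (c : M.Cfg),
      (simStep U M.prog)^[n] (codeC U c) = codeC U (M.tstep^[n] c) := by
    intro n
    induction n with
    | zero => intro c; rfl
    | succ n ih => intro c; rw [iterate_succ_apply, iterate_succ_apply, hstep, ih]
  have e0 : init (p, z) = codeC U (M.start p [] z) := by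
    have e : (M.start p [] z).stk =
        update (update (fun _ => ([] : List Bool)) 0 p) (2 : Fin (M.k + 4)) z := by
      funext i
      have h2 : ((2 : Fin (M.k + 4)) : ℕ) = 2 := by simp [Nat.mod_eq_of_lt]
      by_cases h0 : i = 2
      · subst h0
        simp only [start, h2, update_self]
        simp
      · have h0' : (i : ℕ) ≠ 2 := fun h => h0 (Fin.ext (by rw [h, h2]))
        by_cases h1 : i = 0
        · subst h1
          simp only [start, update_of_ne h0, update_self]
          simp
        · have h1' : (i : ℕ) ≠ 0 := fun h => h1 (Fin.ext h)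
          simp only [start, update_of_ne h0, update_of_ne h1, if_neg h0', if_neg h1']
          simp
    simp only [codeC, init]
    rw [e, codeS_update, codeS_update]
    rfl
  simp only [foldl_const_iter]
  rw [e0, hiter, out_iff]
  simp only [codeC, getD_codeS, List.map_map, Prod.mk.injEq, Option.isNone_iff_eq_none]
  have : ∀ l : List Bool, l.map (out ∘ fun g => symCode U ⟨3, g⟩) = l := fun l => by
    conv_rhs => rw [← List.map_id l]
    refine List.map_congr_left fun b _ => ?_
    simp [out, symDec_code U _ _ (hU ⟨3, b⟩)]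
  rw [this]

end Machine

/-- The registers at the start of a computation. -/
def reg (p y z : List Bool) : St := fun r =>
  if r = 0 then p else if r = 1 then y else if r = 2 then z else []

/-- The machine compiled from a structured program. -/
noncomputable def mcompile (P : Prog) : Machine where
  k := P.regs
  Λ := Lab ([] :: P.labels [])
  σ := Option Bool
  main := toLab _ [P]
  init := none
  prog := machine (P.regs + 2) ([] :: P.labels [])

theorem out_of_run (P : Prog) (p y z : List Bool) (S' : St) (T : ℕ)
    (h : Run P (reg p y z) S' T) : (mcompile P).Out p y z (T + 1) (S' 3) := by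
  obtain ⟨n, hn, h⟩ := h
  have h1 := h.sim (P.regs + 2) ([] :: P.labels []) [] (by omega)
    (fun l hl => List.mem_cons_of_mem _ hl)
  have h2 : Steps (P.regs + 2) ([] :: P.labels []) 1
      (cfg (P.regs + 2) ([] :: P.labels []) [] S') ⟨none, none, restr (P.regs + 2) S'⟩ := by
    apply steps_one
    rw [step_cfg _ _ _ List.mem_cons_self]
    rfl
  refine ⟨n + 1, by omega, ⟨none, none, restr (P.regs + 2) S'⟩, steps_trans _ _ h1 h2, rfl, ?_⟩
  have h3 : ((3 : Fin (P.regs + 4)) : ℕ) = 3 := by simp [Nat.mod_eq_of_lt]
  exact congrArg S' h3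

/-- An unbounded loop: iterate `st` while `go` holds. -/
theorem exists_while {σ : Type} [Enc σ] {st : σ → σ} {go : σ → Bool} (hs : PT st) (hg : PT go) :
    ∃ q : Polynomial ℕ, ∀ dst fr : ℕ, dst < fr → ∃ W : Prog, ∀ (n b : ℕ) (s : σ) (S : St),
      S dst = enc s → (∀ r, fr ≤ r → S r = []) → (∀ k < n, go (st^[k] s) = true) →
      go (st^[n] s) = false → (∀ k ≤ n, sz (st^[k] s) ≤ b) →
      Run W S (update S dst (enc (st^[n] s))) ((n + 1) * q.eval b) := by
  have hf : PTR (fun s : σ => enc s) fun s => if go s = true then [true] else [] :=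
    (PTR.case hg PTR.nil PTR.nil (PT.constB [true])).congr fun s => by
      cases go s <;> rfl
  obtain ⟨T0, ⟨p0, hp0⟩, h0⟩ := hs
  obtain ⟨T1, ⟨p1, hp1⟩, h1⟩ := hf
  refine ⟨p0 + p1 + 20 * Polynomial.X + 20, fun dst fr hd => ?_⟩
  obtain ⟨c0, hc0⟩ := h0 dst (fr + 1) (fr + 3) (by omega) (by omega) (by omega)
  obtain ⟨c1, hc1⟩ := h1 dst fr (fr + 1) (by omega) (by omega) (by omega)
  have n0 : dst ≠ fr := by omega
  have n1 : dst ≠ fr + 1 := by omega
  have n2 : dst ≠ fr + 2 := by omega
  let body : Prog := .seq (.seq (.pop fr) (.seq c0 (.seq (clear dst)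
    (move (fr + 1) dst (fr + 2))))) c1
  have key : ∀ (n b : ℕ) (s : σ) (S : St), S dst = enc s →
      S fr = (if go s = true then [true] else []) → (∀ r, fr + 1 ≤ r → S r = []) →
      (∀ k < n, go (st^[k] s) = true) → go (st^[n] s) = false → (∀ k ≤ n, sz (st^[k] s) ≤ b) →
      Run (.loop fr body) S (update (update S fr []) dst (enc (st^[n] s)))
        (n * (p0.eval b + p1.eval b + 20 * b + 20) + 1) := by
    intro n b
    induction n with
    | zero =>
      intro s S hs hfr _ _ hn _
      have hn' : go s = false := hn
      have hm' : S fr = [] := by rw [hfr, hn']; rfl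
      refine (Run.loopE hm').cast ?_ (by simp)
      have : update S fr [] = S := by rw [← hm', update_eq_self]
      simp [this, ← hs]
    | succ n ih =>
      intro s S hs hfr hS hk hn hb
      have hgo : go s = true := hk 0 (by omega)
      have hm : S fr = [true] := by rw [hfr, if_pos hgo]
      have e1 : S (fr + 1) = [] := hS _ le_rfl
      have e2 : S (fr + 2) = [] := hS _ (by omega)
      have hb0 : sz s ≤ b := hb 0 (by omega)
      have hb1 : sz (st s) ≤ b := hb 1 (by omega)
      have r0 := hc0 s (update S fr (S fr).tail) (by simp [n0, hs]) (fun r hr => by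
        have : r ≠ fr := by omega
        simp [this, hS r (by omega)]) (by simp [e1])
      have r1 : Run (.seq (.pop fr) (.seq c0 (.seq (clear dst) (move (fr + 1) dst (fr + 2))))) S
          (update (update S fr []) dst (enc (st s))) (p0.eval b + 20 * b + 8) := by
        refine ((Run.pop fr S).seq (r0.seq ((run_clear dst (enc s) _ (by simp [n0, n1, hs])).seq
          (run_move (fr + 1) dst (fr + 2) n1.symm (by omega) n2 _
            (by simp [n2.symm, e2]))))).cast ?_ ?_
        · funext r
          by_cases h0 : r = dst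
          · subst h0; simp [n1.symm]
          · by_cases h1 : r = fr + 1
            · subst h1; simp [h0, e1]
            · simp [h0, h1, update_apply, hm]
        · have := hp0 s
          have := eval_mono p0 hb0
          simp [n1.symm, sz] at *; omega
      have r2 := hc1 (st s) (update (update S fr []) dst (enc (st s))) (by simp) (fun r hr => by
        have : r ≠ fr := by omega
        have : r ≠ dst := by omega
        simp [*, hS r hr]) (by simp [n0.symm])
      have r3 : Run body S (update (update (update S fr []) dst (enc (st s))) fr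
          (if go (st s) = true then [true] else [])) (p0.eval b + p1.eval b + 20 * b + 19) := by
        refine (r1.seq r2).mono ?_
        have := hp1 (st s)
        have := eval_mono p1 hb1
        simp only [sz] at *
        omega
      have r4 := ih (st s) (update (update (update S fr []) dst (enc (st s))) fr
          (if go (st s) = true then [true] else [])) (by simp [n0]) (by simp) (fun r hr => by
          have : r ≠ fr := by omega
          have : r ≠ dst := by omega
          simp [*, hS r hr]) (fun k hk' => by simpa using hk (k + 1) (by omega))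
          (by simpa using hn) (fun k hk' => by simpa using hb (k + 1) (by omega))
      refine (Run.loopN (by simp [hm]) r3 r4).cast ?_ (by nlinarith)
      funext r
      by_cases h0 : r = dst
      · subst h0; simp
      · by_cases h1 : r = fr <;> simp [h0, h1, update_apply]
  refine ⟨.seq c1 (.loop fr body), fun n b s S hs hS hk hn hb => ?_⟩
  have r0 := hc1 s S hs (fun r hr => hS r (by omega)) (hS _ le_rfl)
  have r1 := key n b s (update S fr (if go s = true then [true] else [])) (by simp [n0, hs])
    (by simp) (fun r hr => by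
      have : r ≠ fr := by omega
      simp [this, hS r (by omega)]) hk hn hb
  refine (r0.seq r1).cast ?_ ?_
  · funext r
    by_cases h0 : r = dst
    · subst h0; simp
    · by_cases h1 : r = fr
      · subst h1; simp [h0, hS _ le_rfl]
      · simp [h0, h1]
  · have := hp1 s
    have := eval_mono p1 (hb 0 (by omega))
    simp only [sz, iterate_zero, id] at *
    simp only [Polynomial.eval_add, Polynomial.eval_mul, Polynomial.eval_X, Polynomial.eval_ofNat]
    nlinarith

/-- A machine that reads its program and then searches. -/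
theorem exists_search {σ : Type} [Enc σ] {init : List Bool → σ} {st : σ → σ} {go : σ → Bool}
    {out : σ → List Bool} (hi : PT init) (hs : PT st) (hg : PT go) (ho : PT out) :
    ∃ (M : Machine) (q : Polynomial ℕ), ∀ (p : List Bool) (n b : ℕ), p.length ≤ b →
      (∀ k < n, go (st^[k] (init p)) = true) → go (st^[n] (init p)) = false →
      (∀ k ≤ n, sz (st^[k] (init p)) ≤ b) →
      M.Out p [] [] ((n + 1) * q.eval b) (out (st^[n] (init p))) := by
  have hi' : PTR (fun p : List Bool => p) fun p => enc (init p) :=
    PTR.comp (F := fun p : List Bool => (⟨p⟩ : Raw)) (PT.comp hi PT.rawToList) PTR.id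
  have ho' : PTR (fun s : σ => enc s) fun s => out s := PT.comp PT.listToRaw ho
  obtain ⟨q, hq⟩ := exists_while hs hg
  obtain ⟨W, hW⟩ := hq 4 5 (by omega)
  obtain ⟨T1, ⟨p1, hp1⟩, h1⟩ := hi'
  obtain ⟨T2, ⟨p2, hp2⟩, h2⟩ := ho'
  obtain ⟨c1, hc1⟩ := h1 0 4 5 (by omega) (by omega) (by omega)
  obtain ⟨c2, hc2⟩ := h2 4 3 5 (by omega) (by omega) (by omega)
  refine ⟨mcompile (.seq c1 (.seq W c2)), q + p1 + p2 + 3, fun p n b hb hk hn hsz => ?_⟩
  have hr : ∀ r, 5 ≤ r → reg p [] [] r = [] := fun r hr => by
    have : r ≠ 0 := by omega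
    simp [reg, this]
  have r1 := hc1 p (reg p [] []) (by simp [reg]) hr (by simp [reg])
  have r2 := hW n b (init p) (update (reg p [] []) 4 (enc (init p))) (by simp) (fun r h => by
    have : r ≠ 4 := by omega
    simp [this, hr r h]) hk hn hsz
  have r3 := hc2 (st^[n] (init p)) (update (update (reg p [] []) 4 (enc (init p))) 4
    (enc (st^[n] (init p)))) (by simp) (fun r h => by
    have : r ≠ 4 := by omega
    simp [this, hr r h]) (by simp [reg])
  have := out_of_run _ p [] [] _ _ (r1.seq (r2.seq r3))
  simp only [update_self] at this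
  refine this.mono ?_
  have a1 := (hp1 p).trans (eval_mono p1 hb)
  have a2 := (hp2 (st^[n] (init p))).trans (eval_mono p2 (hsz n le_rfl))
  simp only [Polynomial.eval_add, Polynomial.eval_ofNat]
  nlinarith

/-- A set computed by an unbounded loop of polynomial time steps is recursive. -/
theorem recursive_of_loop {σ : Type} [Enc σ] {init : List Bool → σ} {st : σ → σ} {go : σ → Bool}
    {out : σ → Bool} (hi : PT init) (hs : PT st) (hg : PT go) (ho : PT out)
    (A : List Bool → Bool) (h : ∀ x, ∃ n, (∀ k < n, go (st^[k] (init x)) = true) ∧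
      go (st^[n] (init x)) = false ∧ out (st^[n] (init x)) = A x) : Recursive A := by
  obtain ⟨q, hq⟩ := exists_while hs hg
  obtain ⟨W, hW⟩ := hq 2 3 (by omega)
  obtain ⟨T1, _, h1⟩ := hi
  obtain ⟨T2, _, h2⟩ := ho
  obtain ⟨c1, hc1⟩ := h1 0 2 3 (by omega) (by omega) (by omega)
  obtain ⟨c2, hc2⟩ := h2 2 1 3 (by omega) (by omega) (by omega)
  let P : Prog := .seq c1 (.seq W (.seq c2 (.seq (clear 0) (clear 2))))
  have key : ∀ x : List Bool, ∃ m, Exec P (update (fun _ => []) 0 (enc x))
      (update (fun _ => []) 1 (enc (A x))) m := by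
    intro x
    obtain ⟨n, hk, hn, ho⟩ := h x
    let b := (Finset.range (n + 1)).sup fun k => sz (st^[k] (init x))
    have hb : ∀ k ≤ n, sz (st^[k] (init x)) ≤ b := fun k hk =>
      Finset.le_sup (f := fun k => sz (st^[k] (init x))) (Finset.mem_range.2 (by omega))
    have r1 := hc1 x (update (fun _ => []) 0 (enc x)) (by simp) (fun r hr => by
      have : r ≠ 0 := by omega
      simp [this]) (by simp)
    have r2 := hW n b (init x) (update (update (fun _ => []) 0 (enc x)) 2 (enc (init x))) (by simp)
      (fun r hr => by
        have : r ≠ 0 := by omega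
        have : r ≠ 2 := by omega
        simp [*]) hk hn hb
    have r3 := hc2 (st^[n] (init x)) (update (update (update (fun _ => []) 0 (enc x)) 2
      (enc (init x))) 2 (enc (st^[n] (init x)))) (by simp) (fun r hr => by
        have : r ≠ 0 := by omega
        have : r ≠ 2 := by omega
        simp [*]) (by simp)
    have r := r1.seq (r2.seq (r3.seq ((run_clear 0 (enc x) _ (by simp)).seq
      (run_clear 2 (enc (st^[n] (init x))) _ (by simp)))))
    obtain ⟨m, _, hm⟩ := r.cast (S₁ := update (fun _ => []) 1 (enc (A x))) (by
      funext r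
      by_cases h2 : r = 2
      · subst h2; simp
      · by_cases h0 : r = 0
        · subst h0; simp
        · by_cases h1 : r = 1
          · subst h1; simp [ho]
          · simp [h0, h1, h2]) le_rfl
    exact ⟨m, hm⟩
  choose m hm using key
  refine ⟨{ tm := compile P, inputAlphabet := Equiv.refl _, outputAlphabet := Equiv.refl _,
            outputsFun := fun a => ⟨m a + 1, ?_⟩ }⟩
  have := compile_outputs P (enc a) (enc (A a)) (m a) (hm a)
  have e : ∀ l : Bits, List.map (Equiv.refl Bool).invFun l = l := fun l => by simp
  have key : ∀ u v : Bits, u = enc a → v = enc (A a) → (flip bind (compile P).step)^[m a + 1]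
      (some (initList (compile P) u)) = some (haltList (compile P) v) := by
    rintro u v rfl rfl
    exact this
  exact key _ _ (e _) (e _)

/-- The input read in parallel with the program. -/
def trip : List Bool → List Bool → List (Bool × Bool × Bool)
  | [], _ => []
  | b :: z, [] => (b, false, false) :: trip z []
  | b :: z, c :: p => (b, true, c) :: trip z p

theorem trip_fst : ∀ z p : List Bool, (trip z p).map (fun e => e.1) = z
  | [], _ => rfl
  | b :: z, [] => by simp [trip, trip_fst z []]
  | b :: z, c :: p => by simp [trip, trip_fst z p]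

theorem trip_snd : ∀ z p : List Bool,
    ((trip z p).filter fun e => e.2.1).map (fun e => e.2.2) = p.take z.length
  | [], _ => by simp [trip]
  | b :: z, [] => by simpa [trip] using trip_snd z []
  | b :: z, c :: p => by simp [trip, trip_snd z p]

theorem trip_length : ∀ z p : List Bool, (trip z p).length = z.length
  | [], _ => rfl
  | b :: z, [] => by simp [trip, trip_length z []]
  | b :: z, c :: p => by simp [trip, trip_length z p]

/-- The word pushed for one triple. -/
def tw (e : Bool × Bool × Bool) : Bits := (N487b59b3.delimit (enc e)).reverse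

theorem tw_length (e : Bool × Bool × Bool) : (tw e).length = 15 := by
  obtain ⟨a, b, c⟩ := e
  simp [tw, enc_prod, enc_bool]

def readB (b : Bool) : Prog :=
  .case 0 (pushes 4 (tw (b, false, false))) (.seq (.pop 0) (pushes 4 (tw (b, true, false))))
    (.seq (.pop 0) (pushes 4 (tw (b, true, true))))

def front : Prog := .loop 2 (.case 2 .skip (.seq (.pop 2) (readB false)) (.seq (.pop 2) (readB true)))

theorem run_front : ∀ (z p : List Bool) (acc : List (Bool × Bool × Bool)) (S : St),
    S 2 = z → S 0 = p → S 4 = enc acc →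
    Run front S (update (update (update S 2 []) 0 (p.drop z.length)) 4
      (enc ((trip z p).reverse ++ acc))) (40 * z.length + 1) := by
  intro z
  induction z with
  | nil =>
    intro p acc S h2 h0 h4
    refine (Run.loopE h2).cast ?_ (by simp)
    funext r
    by_cases a4 : r = 4
    · subst a4; simp [trip, h4]
    · by_cases a0 : r = 0
      · subst a0; simp [h0]
      · by_cases a2 : r = 2
        · subst a2; simp [h2]
        · simp [a4, a0, a2]
  | cons b z ih =>
    intro p acc S h2 h0 h4
    have hread : ∃ e : Bool × Bool × Bool, trip (b :: z) p = e :: trip z p.tail ∧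
        Run (readB b) (update S 2 z) (update (update (update S 2 z) 0 p.tail) 4 (enc (e :: acc)))
          34 := by
      rcases p with _ | ⟨_ | _, p⟩
      · refine ⟨(b, false, false), rfl, (Run.caseE (by simp [h0]) (run_pushes 4 _ _)).cast ?_
          (by rw [tw_length]; omega)⟩
        funext r
        by_cases a4 : r = 4
        · subst a4; simp [tw, enc_cons, h4]
        · by_cases a0 : r = 0
          · subst a0; simp [h0]
          · simp [a4, a0]
      · refine ⟨(b, true, false), rfl, (Run.caseF (by simp [h0])
          ((Run.pop 0 _).seq (run_pushes 4 _ _))).cast ?_ (by rw [tw_length])⟩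
        funext r
        by_cases a4 : r = 4
        · subst a4; simp [tw, enc_cons, h4]
        · by_cases a0 : r = 0
          · subst a0; simp [h0]
          · simp [a4, a0]
      · refine ⟨(b, true, true), rfl, (Run.caseT (by simp [h0])
          ((Run.pop 0 _).seq (run_pushes 4 _ _))).cast ?_ (by rw [tw_length])⟩
        funext r
        by_cases a4 : r = 4
        · subst a4; simp [tw, enc_cons, h4]
        · by_cases a0 : r = 0
          · subst a0; simp [h0]
          · simp [a4, a0]
    obtain ⟨e, he, hr⟩ := hread
    have hpop : Run (.pop 2) S (update S 2 z) 1 := (Run.pop 2 S).cast (by simp [h2]) le_rfl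
    have h1 : Run (.case 2 .skip (.seq (.pop 2) (readB false)) (.seq (.pop 2) (readB true))) S
        (update (update (update S 2 z) 0 p.tail) 4 (enc (e :: acc))) 37 := by
      cases b
      · exact Run.caseF (by simp [h2]) (hpop.seq hr)
      · exact Run.caseT (by simp [h2]) (hpop.seq hr)
    refine (Run.loopN (by simp [h2]) h1 (ih p.tail (e :: acc) _ (by simp) (by simp)
      (by simp))).cast ?_ (by simp; omega)
    funext r
    by_cases a4 : r = 4
    · subst a4; simp [he]
    · by_cases a0 : r = 0
      · subst a0; simp
      · by_cases a2 : r = 2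
        · subst a2; simp
        · simp [a4, a0, a2]

/-- A machine whose running time is polynomial in the length of the input alone; it reads only
as many bits of the program as the input has. -/
theorem exists_lazy {G : List Bool × List Bool → List Bool} (hG : PT G) :
    ∃ (M : Machine) (q : Polynomial ℕ), ∀ p z : List Bool,
      M.Out p [] z (q.eval z.length) (G (z, p.take z.length)) := by
  have h1 : PT fun l : List (Bool × Bool × Bool) =>
      G (l.reverse.map (fun e => e.1), (l.reverse.filter fun e => e.2.1).map fun e => e.2.2) :=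
    PT.comp hG (PT.pair
      (PT.map (F := fun _ (e : Bool × Bool × Bool) => e.1) (PT.reverse PT.id) (PT.fst PT.snd'))
      (PT.map (F := fun _ (e : Bool × Bool × Bool) => e.2.2)
        (PT.filter (P := fun _ (e : Bool × Bool × Bool) => e.2.1) (PT.reverse PT.id)
          (PT.fst (PT.snd PT.snd'))) (PT.snd (PT.snd PT.snd'))))
  obtain ⟨T, ⟨p1, hp1⟩, h⟩ := PT.comp PT.listToRaw h1
  obtain ⟨c, hc⟩ := h 4 3 5 (by omega) (by omega) (by omega)
  refine ⟨mcompile (.seq front c), p1.comp (15 * Polynomial.X) + 40 * Polynomial.X + 3,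
    fun p z => ?_⟩
  have r1 := run_front z p [] (reg p [] z) (by simp [reg]) (by simp [reg]) (by simp [reg, enc_nil])
  have r2 := hc (trip z p).reverse (update (update (update (reg p [] z) 2 []) 0
    (p.drop z.length)) 4 (enc ((trip z p).reverse ++ []))) (by simp) (fun r hr => by
      have : r ≠ 4 := by omega
      have : r ≠ 0 := by omega
      have : r ≠ 1 := by omega
      have : r ≠ 2 := by omega
      simp [*, reg]) (by simp [reg])
  have := out_of_run _ p [] z _ _ (r1.seq r2)
  simp only [update_self, List.reverse_reverse, trip_fst, trip_snd, enc_raw] at this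
  refine this.mono ?_
  have a1 := hp1 (trip z p).reverse
  have a2 : sz (trip z p).reverse ≤ 15 * z.length := by
    have : ∀ l : List (Bool × Bool × Bool), sz l = 15 * l.length := by
      intro l
      induction l with
      | nil => rfl
      | cons e l ih =>
        obtain ⟨a, b, c⟩ := e
        rw [sz_cons, ih, sz_prod, sz_prod]
        simp [sz_bool]; omega
    rw [this, List.length_reverse, trip_length]
  have a3 := eval_mono p1 a2
  simp only [Polynomial.eval_add, Polynomial.eval_mul, Polynomial.eval_X, Polynomial.eval_ofNat,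
    Polynomial.eval_comp]
  simp only [sz] at a1 a3
  omega

end Pool.Agent.Lib.MP_66fb70_lc
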